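import Pool.Agent.Lib.TwF.Defs

namespace Pool.Agent.Lib.TwF

private theorem diag_zpow {K : Type} [Field K] {k : ℕ} {f : (Fin k → ℤ) → K} {i : Fin k} {r : K}
    (hr : r ≠ 0) (h : ∀ p, f (p + Pi.single i 1) = r * f p) (n : ℤ) (p : Fin k → ℤ) :
    f (p + Pi.single i n) = r ^ n * f p := by
  induction n using Int.induction_on generalizing p with
  | zero => simp
  | succ n ih =>
    rw [Pi.single_add, ← add_assoc, h, ih, zpow_add₀ hr, zpow_one]
    ring
  | pred n ih =>
    have h1 := h (p + Pi.single i (-(n : ℤ) - 1))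
    rw [add_assoc, ← Pi.single_add, sub_add_cancel, ih] at h1
    rw [zpow_sub₀ hr, zpow_one, div_mul_eq_mul_div, h1]
    field_simp

private theorem diag_all {K : Type} [Field K] {k : ℕ} {f : (Fin k → ℤ) → K} {r : Fin k → K}
    (hr : ∀ i, r i ≠ 0) (h : ∀ i p, f (p + Pi.single i 1) = r i * f p) (p : Fin k → ℤ) :
    f p = f 0 * ∏ i, (r i) ^ (p i) := by
  have key : ∀ s : Finset (Fin k), f (∑ i ∈ s, Pi.single i (p i)) = f 0 * ∏ i ∈ s, (r i) ^ (p i) := by
    intro s
    induction s using Finset.induction_on with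
    | empty => simp
    | insert a s ha ih =>
      rw [Finset.sum_insert ha, Finset.prod_insert ha, add_comm, diag_zpow (hr a) (h a), ih]
      ring
  have h1 := key Finset.univ
  rw [Finset.univ_sum_single] at h1
  exact h1

/-- the part of `f` with the root different from `a`, `b` -/
private def part {K : Type} [Field K] {k : ℕ} (a b c : K) (i : Fin k) (f : (Fin k → ℤ) → K) :
    (Fin k → ℤ) → K := fun p =>
  (f (p + Pi.single i 2) - (a + b) * f (p + Pi.single i 1) + a * b * f p) * ((c - a) * (c - b))⁻¹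

private theorem part_rec {K : Type} [Field K] {k : ℕ} {x y z : K} {f : (Fin k → ℤ) → K}
    (hf : Rec x y z f) (a b c : K) (i : Fin k) : Rec x y z (part a b c i f) := by
  intro j p
  unfold part
  have h2 := hf j (p + Pi.single i 2)
  have h1 := hf j (p + Pi.single i 1)
  have h0 := hf j p
  rw [add_right_comm p (Pi.single i 2), add_right_comm p (Pi.single i 2),
    add_right_comm p (Pi.single i 2)] at h2
  rw [add_right_comm p (Pi.single i 1), add_right_comm p (Pi.single i 1),
    add_right_comm p (Pi.single i 1)] at h1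
  linear_combination ((c - a) * (c - b))⁻¹ * (h2 - (a + b) * h1 + a * b * h0)

private theorem part_diag {K : Type} [Field K] {k : ℕ} {f : (Fin k → ℤ) → K} {j : Fin k} {r : K}
    (h : ∀ p, f (p + Pi.single j 1) = r * f p) (a b c : K) (i : Fin k) (p : Fin k → ℤ) :
    part a b c i f (p + Pi.single j 1) = r * part a b c i f p := by
  unfold part
  rw [add_right_comm p (Pi.single j 1) (Pi.single i 2),
    add_right_comm p (Pi.single j 1) (Pi.single i 1), h, h, h]
  ring

private theorem part_root {K : Type} [Field K] {k : ℕ} {f : (Fin k → ℤ) → K} {i : Fin k}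
    {a b c : K} (h : ∀ p, f (p + Pi.single i 3) - (c + a + b) * f (p + Pi.single i 2) +
      (c * a + a * b + b * c) * f (p + Pi.single i 1) - c * a * b * f p = 0) (p : Fin k → ℤ) :
    part a b c i f (p + Pi.single i 1) = c * part a b c i f p := by
  unfold part
  have e2 : p + Pi.single i (1 : ℤ) + Pi.single i 2 = p + Pi.single i 3 := by
    rw [add_assoc, ← Pi.single_add]; norm_num
  have e1 : p + Pi.single i (1 : ℤ) + Pi.single i 1 = p + Pi.single i 2 := by
    rw [add_assoc, ← Pi.single_add]; norm_num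
  rw [e2, e1]
  linear_combination ((c - a) * (c - b))⁻¹ * h p

private theorem part_sum {K : Type} [Field K] {k : ℕ} {x y z : K} (hxy : x ≠ y) (hyz : y ≠ z)
    (hxz : x ≠ z) (f : (Fin k → ℤ) → K) (i : Fin k) :
    f = part y z x i f + part z x y i f + part x y z i f := by
  funext p
  simp only [Pi.add_apply, part]
  have h1 : x - y ≠ 0 := sub_ne_zero.2 hxy
  have h2 : y - z ≠ 0 := sub_ne_zero.2 hyz
  have h3 : x - z ≠ 0 := sub_ne_zero.2 hxz
  have h1' : y - x ≠ 0 := sub_ne_zero.2 hxy.symm
  have h2' : z - y ≠ 0 := sub_ne_zero.2 hyz.symm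
  have h3' : z - x ≠ 0 := sub_ne_zero.2 hxz.symm
  rw [← sub_eq_zero]
  have e1 : y - x = -(x - y) := by ring
  have e2 : z - y = -(y - z) := by ring
  have e3 : z - x = -(x - z) := by ring
  rw [e1, e2, e3]
  field_simp
  ring

private noncomputable def chi {K : Type} [Field K] {k : ℕ} (r : Fin 3 → K) (e : Fin k → Fin 3) :
    (Fin k → ℤ) → K := fun p => ∏ i, (r (e i)) ^ (p i)

private theorem mem_span {K : Type} [Field K] {k : ℕ} (x y z : K) (hx : x ≠ 0) (hy : y ≠ 0)
    (hz : z ≠ 0) (hxy : x ≠ y) (hyz : y ≠ z) (hxz : x ≠ z) (s : Finset (Fin k)) :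
    ∀ f : (Fin k → ℤ) → K, Rec x y z f →
      (∀ i, i ∉ s → ∃ j : Fin 3, ∀ p, f (p + Pi.single i 1) = ![x, y, z] j * f p) →
      f ∈ Submodule.span K (Set.range (chi (k := k) ![x, y, z])) := by
  classical
  have hr : ∀ j : Fin 3, ![x, y, z] j ≠ 0 := by
    intro j
    fin_cases j
    · exact hx
    · exact hy
    · exact hz
  induction s using Finset.induction_on with
  | empty =>
    intro f _ hd
    choose e he using fun i => hd i (Finset.notMem_empty i)
    have h1 : f = f 0 • chi ![x, y, z] e := by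
      funext p
      rw [Pi.smul_apply, smul_eq_mul]
      exact diag_all (r := fun i => ![x, y, z] (e i)) (fun i => hr _) he p
    rw [h1]
    exact Submodule.smul_mem _ _ (Submodule.subset_span ⟨e, rfl⟩)
  | insert i s hi ih =>
    intro f hf hd
    rw [part_sum hxy hyz hxz f i]
    have hrec := hf i
    refine Submodule.add_mem _ (Submodule.add_mem _ (ih _ (part_rec hf _ _ _ _) ?_)
      (ih _ (part_rec hf _ _ _ _) ?_)) (ih _ (part_rec hf _ _ _ _) ?_)
    · intro j hj
      by_cases hji : j = i
      · subst hji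
        refine ⟨0, fun p => part_root (fun p => ?_) p⟩
        linear_combination hf j p
      · obtain ⟨t, ht⟩ := hd j (by simp [hji, hj])
        exact ⟨t, fun p => part_diag ht _ _ _ _ p⟩
    · intro j hj
      by_cases hji : j = i
      · subst hji
        refine ⟨1, fun p => part_root (fun p => ?_) p⟩
        linear_combination hf j p
      · obtain ⟨t, ht⟩ := hd j (by simp [hji, hj])
        exact ⟨t, fun p => part_diag ht _ _ _ _ p⟩
    · intro j hj
      by_cases hji : j = i
      · subst hji
        refine ⟨2, fun p => part_root (fun p => ?_) p⟩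
        linear_combination hf j p
      · obtain ⟨t, ht⟩ := hd j (by simp [hji, hj])
        exact ⟨t, fun p => part_diag ht _ _ _ _ p⟩

theorem closed {K : Type} [Field K] {k : ℕ} (x y z : K) (hx : x ≠ 0) (hy : y ≠ 0) (hz : z ≠ 0)
    (hxy : x ≠ y) (hyz : y ≠ z) (hxz : x ≠ z) (f : (Fin k → ℤ) → K) (hf : Rec x y z f) :
    ∃ c : (Fin k → Fin 3) → K, ∀ p, f p = ∑ e, c e * ∏ i, (![x, y, z] (e i)) ^ (p i) := by
  have h := mem_span x y z hx hy hz hxy hyz hxz Finset.univ f hf
    (fun i hi => absurd (Finset.mem_univ i) hi)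
  rw [Submodule.mem_span_range_iff_exists_fun] at h
  obtain ⟨c, hc⟩ := h
  refine ⟨c, fun p => ?_⟩
  rw [← hc, Finset.sum_apply]
  rfl

end Pool.Agent.Lib.TwF
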