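import Pool.Agent.Lib.TwF.Defs

namespace Pool.Agent.Lib.TwF

instance : IsDomain (AddMonoidAlgebra ℤ (ℤ × ℤ)) := by
  have : NoZeroDivisors (AddMonoidAlgebra ℤ (ℤ × ℤ)) := inferInstance
  have : Nontrivial (AddMonoidAlgebra ℤ (ℤ × ℤ)) := inferInstance
  exact NoZeroDivisors.to_isDomain _

/-- the field Q(a, b). -/
abbrev Kf := FractionRing (AddMonoidAlgebra ℤ (ℤ × ℤ))

/-- the monomial a^i b^j in Q(a, b). -/
noncomputable def mo (v : ℤ × ℤ) : Kf :=
  algebraMap (AddMonoidAlgebra ℤ (ℤ × ℤ)) Kf (AddMonoidAlgebra.single v 1)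

open AddMonoidAlgebra in
/-- `b + 1/b` in the ring of Laurent polynomials. -/
private noncomputable def inj_w : R := single ((0 : ℤ), (1 : ℤ)) 1 + single ((0 : ℤ), (-1 : ℤ)) 1

open AddMonoidAlgebra in
private lemma inj_pow (n : ℕ) : ∀ v : ℤ × ℤ, ((n : ℤ) < v.2 → (inj_w ^ n).coeff v = 0) ∧
    (v.2 = n → (inj_w ^ n).coeff v = if v.1 = 0 then 1 else 0) := by
  induction n with
  | zero =>
    intro v
    obtain ⟨i, j⟩ := v
    rw [pow_zero, AddMonoidAlgebra.one_def]
    constructor
    · intro h
      simp only [Nat.cast_zero] at h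
      simp only [coeff_single, Finsupp.single_apply]
      rw [if_neg]
      intro h1
      have : (0 : ℤ) = j := congrArg Prod.snd h1
      omega
    · intro h
      simp only [Nat.cast_zero] at h
      subst h
      simp only [coeff_single, Finsupp.single_apply]
      by_cases hi : i = 0
      · subst hi
        rw [if_pos (show (0 : ℤ × ℤ) = (0, 0) from rfl), if_pos rfl]
      · rw [if_neg, if_neg hi]
        intro h1
        exact hi (congrArg Prod.fst h1).symm
  | succ n ih =>
    intro v
    obtain ⟨i, j⟩ := v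
    have e : (inj_w ^ (n + 1)).coeff (i, j) =
        (inj_w ^ n).coeff (i, j - 1) + (inj_w ^ n).coeff (i, j + 1) := by
      rw [pow_succ]
      conv_lhs => rw [inj_w, mul_add]
      simp [coeff_mul_single_apply, inj_w, sub_eq_add_neg]
    rw [e]
    push_cast
    constructor
    · intro h
      rw [(ih (i, j - 1)).1 (by simp only; omega), (ih (i, j + 1)).1 (by simp only; omega), add_zero]
    · intro h
      rw [(ih (i, j - 1)).2 (by simp only; omega), (ih (i, j + 1)).1 (by simp only; omega), add_zero]

private lemma mo_add (u v : ℤ × ℤ) : mo (u + v) = mo u * mo v := by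
  unfold mo
  rw [← map_mul, AddMonoidAlgebra.single_mul_single, one_mul]

private lemma mo_zero : mo 0 = 1 := by
  unfold mo
  rw [← AddMonoidAlgebra.one_def, map_one]

private lemma inj_beta : mo (0, 1) + mo (0, -1) = algebraMap R Kf inj_w := by
  unfold mo inj_w
  rw [map_add]

private lemma inj_beta_ne : mo (0, 1) + mo (0, -1) ≠ 0 := by
  rw [inj_beta]
  intro h
  have h1 : inj_w = 0 := (IsFractionRing.injective R Kf) (by rw [h, map_zero])
  have h2 := (inj_pow 1 (0, 1)).2 (by simp)
  rw [pow_one, h1] at h2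
  simp at h2

/-- the substitution on monomials -/
private noncomputable def inj_F : Multiplicative (ℤ × ℤ) →* Kf where
  toFun u := mo ((Multiplicative.toAdd u).1, 0) * (mo (0, 1) + mo (0, -1)) ^ (Multiplicative.toAdd u).2
  map_one' := by
    simp only [toAdd_one, Prod.fst_zero, Prod.snd_zero, zpow_zero, mul_one]
    exact mo_zero
  map_mul' u v := by
    have h1 : mo ((Multiplicative.toAdd (u * v)).1, 0) =
        mo ((Multiplicative.toAdd u).1, 0) * mo ((Multiplicative.toAdd v).1, 0) := by
      rw [← mo_add]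
      congr 1
    rw [h1, toAdd_mul, Prod.snd_add, zpow_add₀ inj_beta_ne]
    ring

private noncomputable def inj_phi : R →ₐ[ℤ] Kf := AddMonoidAlgebra.lift ℤ Kf (ℤ × ℤ) inj_F

private lemma inj_phi_single (u : ℤ × ℤ) (c : ℤ) : inj_phi (AddMonoidAlgebra.single u c) =
    (c : Kf) * (mo (u.1, 0) * (mo (0, 1) + mo (0, -1)) ^ u.2) := by
  unfold inj_phi
  rw [AddMonoidAlgebra.lift_single, Algebra.smul_def, eq_intCast]
  rfl

open AddMonoidAlgebra in
/-- the case of nonnegative exponents of `z` -/
private lemma inj_nonneg (f : R) (hf : ∀ u ∈ f.coeff.support, 0 ≤ u.2) (h : inj_phi f = 0) : f = 0 := by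
  by_contra hne
  set g : R := ∑ u ∈ f.coeff.support, f.coeff u • (single (u.1, 0) 1 * inj_w ^ u.2.toNat) with hg
  have h1 : inj_phi f = algebraMap R Kf g := by
    have e : ∑ u ∈ f.coeff.support, single u (f.coeff u) = f := sum_coeff_single f
    conv_lhs => rw [← e]
    rw [map_sum, hg, map_sum]
    refine Finset.sum_congr rfl fun u hu => ?_
    rw [inj_phi_single, map_zsmul, map_mul, map_pow, ← inj_beta, zsmul_eq_mul]
    have := hf u hu
    obtain ⟨n, hn⟩ := Int.eq_ofNat_of_zero_le this
    rw [hn, Int.toNat_natCast, zpow_natCast]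
    rfl
  have h2 : g = 0 := (IsFractionRing.injective R Kf) (by rw [← h1, h, map_zero])
  have hs : f.coeff.support.Nonempty := by
    rw [Finsupp.support_nonempty_iff]
    intro h0
    exact hne (coeff_eq_zero.1 h0)
  obtain ⟨u, hu, hmax⟩ := Finset.exists_max_image f.coeff.support (fun u => u.2) hs
  have h3 : g.coeff u = f.coeff u := by
    rw [hg, coeff_sum, Finsupp.finsetSum_apply, Finset.sum_eq_single u]
    · rw [coeff_smul_apply, coeff_single_mul_apply, one_mul]
      have h4 := hf u hu
      rw [(inj_pow u.2.toNat _).2 (by simp [Int.toNat_of_nonneg h4])]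
      simp
    · intro v hv hvu
      rw [coeff_smul_apply, coeff_single_mul_apply, one_mul]
      have h4 := hf v hv
      have h5 : v.2 ≤ u.2 := hmax v hv
      rcases lt_or_eq_of_le h5 with h6 | h6
      · rw [(inj_pow v.2.toNat _).1 (by simp [Int.toNat_of_nonneg h4]; exact h6), smul_zero]
      · rw [(inj_pow v.2.toNat _).2 (by simp [Int.toNat_of_nonneg h4]; exact h6.symm), if_neg, smul_zero]
        intro h7
        apply hvu
        simp at h7
        ext
        · omega
        · exact h6
    · intro h; exact absurd hu h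
  rw [h2, coeff_zero] at h3
  exact (Finsupp.mem_support_iff.1 hu) h3.symm

/-- substitution z = b + 1/b. -/
theorem exists_subst : ∃ φ : R →+* Kf, Function.Injective φ ∧
    (∀ i, φ (mon i 0) = mo (i, 0)) ∧ φ (mon 0 1) = mo (0, 1) + mo (0, -1) := by
  refine ⟨inj_phi.toRingHom, ?_, ?_, ?_⟩
  · rw [injective_iff_map_eq_zero]
    intro f hf
    change inj_phi f = 0 at hf
    by_cases hs : f.coeff.support.Nonempty
    · obtain ⟨u, hu, hmin⟩ := Finset.exists_min_image f.coeff.support (fun u => u.2) hs
      have h1 : inj_phi (f * AddMonoidAlgebra.single ((0 : ℤ), -u.2) 1) = 0 := by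
        rw [map_mul, hf, zero_mul]
      have h2 := inj_nonneg (f * AddMonoidAlgebra.single ((0 : ℤ), -u.2) 1) (by
        intro v hv
        rw [Finsupp.mem_support_iff, AddMonoidAlgebra.coeff_mul_single_apply, mul_one] at hv
        have h3 := hmin _ (Finsupp.mem_support_iff.2 hv)
        simp at h3
        linarith) h1
      rcases mul_eq_zero.1 h2 with h3 | h3
      · exact h3
      · rw [AddMonoidAlgebra.single_eq_zero] at h3
        exact absurd h3 one_ne_zero
    · rw [Finset.not_nonempty_iff_eq_empty, Finsupp.support_eq_empty] at hs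
      exact AddMonoidAlgebra.coeff_eq_zero.1 hs
  · intro i
    change inj_phi (mon i 0) = _
    unfold mon
    rw [inj_phi_single]
    simp
  · change inj_phi (mon 0 1) = _
    unfold mon
    rw [inj_phi_single]
    simp only [zpow_one, Int.cast_one, one_mul]
    rw [show ((0 : ℤ), (0 : ℤ)) = 0 from rfl, mo_zero, one_mul]

end Pool.Agent.Lib.TwF
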