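import Pool.Agent.Lib.TwF.ZeroSet
import Pool.Agent.Lib.TwF.Closed
import Pool.Agent.Lib.TwF.Inj

namespace Pool.Agent.Lib.TwF

theorem mo_add (u v : ℤ × ℤ) : mo (u + v) = mo u * mo v := by
  unfold mo
  rw [← map_mul, AddMonoidAlgebra.single_mul_single, mul_one]

theorem mo_zero : mo 0 = 1 := by
  unfold mo
  rw [← AddMonoidAlgebra.one_def, map_one]

theorem mo_ne (v : ℤ × ℤ) : mo v ≠ 0 := by
  intro h
  have := mo_add v (-v)
  rw [h, zero_mul, add_neg_cancel, mo_zero] at this
  exact one_ne_zero this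

theorem mo_nsmul (v : ℤ × ℤ) (n : ℕ) : mo (n • v) = mo v ^ n := by
  induction n with
  | zero => simp [mo_zero]
  | succ n ih => rw [succ_nsmul, mo_add, ih, pow_succ]

theorem mo_zsmul (v : ℤ × ℤ) (n : ℤ) : mo (n • v) = mo v ^ n := by
  obtain ⟨m, rfl | rfl⟩ := n.eq_nat_or_neg
  · rw [natCast_zsmul, mo_nsmul, zpow_natCast]
  · rw [neg_smul, natCast_zsmul, zpow_neg, zpow_natCast, ← mo_nsmul]
    apply eq_inv_of_mul_eq_one_left
    rw [← mo_add, neg_add_cancel, mo_zero]

theorem mo_sum {α : Type} (s : Finset α) (v : α → ℤ × ℤ) : mo (∑ i ∈ s, v i) = ∏ i ∈ s, mo (v i) := by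
  classical
  induction s using Finset.induction_on with
  | empty => simp [mo_zero]
  | insert a s ha ih => rw [Finset.sum_insert ha, Finset.prod_insert ha, mo_add, ih]

/-- the exponents of the three roots `1/a`, `b`, `1/b`. -/
def vv : Fin 3 → ℤ × ℤ := ![(-1, 0), (0, 1), (0, -1)]

theorem mo_vv (j : Fin 3) : (![mo (-1, 0), mo (0, 1), mo (0, -1)] : Fin 3 → Kf) j = mo (vv j) := by
  fin_cases j <;> rfl

/-- exponent of the product for the choice `e`. -/
def ex {k : ℕ} (e : Fin k → Fin 3) (p : Fin k → ℤ) : ℤ × ℤ := ∑ i, p i • vv (e i)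

theorem prod_roots {k : ℕ} (e : Fin k → Fin 3) (p : Fin k → ℤ) :
    ∏ i, ((![mo (-1, 0), mo (0, 1), mo (0, -1)] : Fin 3 → Kf) (e i)) ^ (p i) = mo (ex e p) := by
  unfold ex
  rw [mo_sum]
  refine Finset.prod_congr rfl fun i _ => ?_
  rw [mo_vv, mo_zsmul]

theorem ex_add {k : ℕ} (e : Fin k → Fin 3) (p q : Fin k → ℤ) : ex e (p + q) = ex e p + ex e q := by
  unfold ex
  rw [← Finset.sum_add_distrib]
  refine Finset.sum_congr rfl fun i _ => ?_
  rw [Pi.add_apply, add_smul]

/-- the additive exponent map. -/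
def lin {k : ℕ} (σ : Fin k → ℤ) : Option (Fin k → Fin 3) → (Fin k → ℤ) →+ ℤ × ℤ
  | none => 0
  | some e => AddMonoidHom.mk' (fun p => ex e p + ex e p + (-(∑ i, σ i * p i), 0)) (by
      intro p q
      have : (∑ i, σ i * (p + q) i) = (∑ i, σ i * p i) + ∑ i, σ i * q i := by
        rw [← Finset.sum_add_distrib]
        refine Finset.sum_congr rfl fun i _ => ?_
        rw [Pi.add_apply, mul_add]
      rw [this, ex_add]
      ext <;> simp <;> ring)

theorem lin_none {k : ℕ} (σ p : Fin k → ℤ) : lin σ none p = 0 := rfl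

theorem lin_some {k : ℕ} (σ : Fin k → ℤ) (e : Fin k → Fin 3) (p : Fin k → ℤ) :
    lin σ (some e) p = ex e p + ex e p + (-(∑ i, σ i * p i), 0) := rfl

/-- the coefficients. -/
noncomputable def co {k : ℕ} (P u : Kf) (v c : (Fin k → Fin 3) → Kf) : Option (Fin k → Fin 3) → Kf
  | none => -P
  | some e => u * v e * c e

theorem co_none {k : ℕ} (P u : Kf) (v c : (Fin k → Fin 3) → Kf) : co P u v c none = -P := rfl

theorem co_some {k : ℕ} (P u : Kf) (v c : (Fin k → Fin 3) → Kf) (e : Fin k → Fin 3) :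
    co P u v c (some e) = u * v e * c e := rfl

theorem exp_eq {k : ℕ} (w0 W : ℤ) (e : Fin k → Fin 3) (s p : Fin k → ℤ) :
    mo (-(w0 + W), 0) * mo (ex e (s + 2 • p)) =
      mo (ex e p + ex e p + (-W, 0)) * (mo (-w0, 0) * mo (ex e s)) := by
  rw [← mo_add, ← mo_add, ← mo_add]
  congr 1
  rw [two_nsmul, ex_add, ex_add]
  ext <;> simp <;> ring

theorem special_of {k : ℕ} (σ : Fin k → ℤ) (e : Fin k → Fin 3) (H : AddSubgroup (Fin k → ℤ))
    (hq : ∀ q ∈ H, lin σ none q = lin σ (some e) q) : Special σ H := by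
  refine ⟨fun i => (vv (e i)).2, fun i => ?_, fun q hqH => ?_⟩
  · have : ∀ j : Fin 3, (vv j).2 = -1 ∨ (vv j).2 = 0 ∨ (vv j).2 = 1 := by decide
    exact this (e i)
  · have h := hq q hqH
    rw [lin_none, lin_some] at h
    have h1 := congrArg Prod.fst h
    have h2 := congrArg Prod.snd h
    simp only [Prod.fst_zero, Prod.snd_zero, Prod.fst_add, Prod.snd_add, add_zero] at h1 h2
    have e1 : (ex e q).1 = -∑ i, (if (vv (e i)).2 = 0 then q i else 0) := by
      unfold ex
      rw [Prod.fst_sum, ← Finset.sum_neg_distrib]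
      refine Finset.sum_congr rfl fun i _ => ?_
      have : ∀ (j : Fin 3) (x : ℤ), (x • vv j).1 = -(if (vv j).2 = 0 then x else 0) := by
        intro j x
        fin_cases j <;> simp [vv]
      exact this (e i) (q i)
    have e2 : (ex e q).2 = ∑ i, (vv (e i)).2 * q i := by
      unfold ex
      rw [Prod.snd_sum]
      refine Finset.sum_congr rfl fun i _ => ?_
      rw [Prod.smul_snd, smul_eq_mul, mul_comm]
    rw [← e2]
    constructor
    · linarith
    · rw [e1] at h1
      linarith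

/-- `f` satisfies in each direction the recurrence with characteristic polynomial `(T - 1/a) (T^2 - z T + 1)`. -/
theorem assembly {k : ℕ} (f : (Fin k → ℤ) → R)
    (hf : ∀ (i : Fin k) (p : Fin k → ℤ), f (p + Pi.single i 3) -
      (mon (-1) 0 + mon 0 1) * f (p + Pi.single i 2) +
      (1 + mon (-1) 0 * mon 0 1) * f (p + Pi.single i 1) - mon (-1) 0 * f p = 0)
    (s : Fin k → ℤ) (w0 : ℤ) (σ : Fin k → ℤ) (P : R) (hP : P ≠ 0) :
    IsCosetUnion (Special σ) {p : Fin k → ℤ | mon (-(w0 + ∑ i, σ i * p i)) 0 * f (s + 2 • p) = P} := by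
  classical
  obtain ⟨φ, hφ, h1, h2⟩ := exists_subst
  have hyz : mo (0, 1) * mo (0, -1) = 1 := by
    rw [← mo_add]
    exact mo_zero
  have hrec : Rec (mo (-1, 0)) (mo (0, 1)) (mo (0, -1)) (fun p => φ (f p)) := by
    intro i p
    have h := congrArg φ (hf i p)
    simp only [map_sub, map_add, map_mul, map_zero, map_one, h1, h2] at h
    dsimp only
    linear_combination h + (φ (f (p + Pi.single i 1)) - mo (-1, 0) * φ (f p)) * hyz
  have hinj : Function.Injective mo := by
    intro u v h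
    have := IsFractionRing.injective (AddMonoidAlgebra ℤ (ℤ × ℤ)) Kf h
    exact (AddMonoidAlgebra.single_left_injective one_ne_zero) this
  obtain ⟨c, hc⟩ := closed (mo (-1, 0)) (mo (0, 1)) (mo (0, -1)) (mo_ne _) (mo_ne _) (mo_ne _)
    (fun h => by simpa using hinj h) (fun h => by simpa using hinj h) (fun h => by simpa using hinj h)
    (fun p => φ (f p)) hrec
  obtain ⟨g, hg⟩ : ∃ g, g = co (φ P) (mo (-w0, 0)) (fun e => mo (ex e s)) c := ⟨_, rfl⟩
  have g0 : g none = -φ P := by rw [hg, co_none]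
  have g1 : ∀ e, g (some e) = mo (-w0, 0) * mo (ex e s) * c e := fun e => by rw [hg, co_some]
  obtain ⟨b, hb⟩ := IsLocalization.exist_integer_multiples_of_finite
    (nonZeroDivisors (AddMonoidAlgebra ℤ (ℤ × ℤ))) g
  choose C hC using hb
  have hb0 : algebraMap (AddMonoidAlgebra ℤ (ℤ × ℤ)) Kf b ≠ 0 := by
    intro h
    have := (IsFractionRing.injective (AddMonoidAlgebra ℤ (ℤ × ℤ)) Kf) (h.trans (map_zero _).symm)
    exact nonZeroDivisors.coe_ne_zero b this
  have hC0 : C none ≠ 0 := by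
    intro h
    have h3 := hC none
    rw [h, map_zero, g0, Algebra.smul_def] at h3
    rcases mul_eq_zero.1 h3.symm with h4 | h4
    · exact hb0 h4
    · exact hP (hφ ((neg_eq_zero.1 h4).trans (map_zero φ).symm))
  obtain ⟨S, hS1, hS2⟩ := zero_set (lin σ) C none hC0
  refine ⟨S, fun t ht => ⟨?_, (hS1 t ht).2⟩, fun p => ?_⟩
  · obtain ⟨j, hj, hq⟩ := (hS1 t ht).1
    obtain ⟨e, rfl⟩ := Option.ne_none_iff_exists'.1 hj
    exact special_of σ e t.1 hq
  rw [← hS2 p]
  simp only [Set.mem_ofPred_eq]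
  have e1 : φ (mon (-(w0 + ∑ i, σ i * p i)) 0 * f (s + 2 • p)) - φ P = ∑ j, mo (lin σ j p) * g j := by
    rw [Fintype.sum_option, map_mul, h1]
    have := hc (s + 2 • p)
    rw [this, Finset.mul_sum]
    have e0 : mo (lin σ none p) * g none = -φ P := by
      rw [lin_none, g0, mo_zero, one_mul]
    rw [e0, neg_add_eq_sub]
    congr 1
    refine Finset.sum_congr rfl fun e _ => ?_
    rw [prod_roots, lin_some, g1]
    have e2 := exp_eq w0 (∑ i, σ i * p i) e s p
    calc mo (-(w0 + ∑ i, σ i * p i), 0) * (c e * mo (ex e (s + 2 • p)))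
        = (mo (-(w0 + ∑ i, σ i * p i), 0) * mo (ex e (s + 2 • p))) * c e := by ring
      _ = _ := by rw [e2]; ring
  have e3 : algebraMap (AddMonoidAlgebra ℤ (ℤ × ℤ)) Kf b * ∑ j, mo (lin σ j p) * g j =
      algebraMap (AddMonoidAlgebra ℤ (ℤ × ℤ)) Kf
        (∑ j, AddMonoidAlgebra.single (lin σ j p) 1 * C j) := by
    rw [map_sum, Finset.mul_sum]
    refine Finset.sum_congr rfl fun j _ => ?_
    rw [map_mul, hC j, Algebra.smul_def]
    unfold mo
    ring
  constructor
  · intro h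
    rw [h, sub_self] at e1
    rw [← e1, mul_zero] at e3
    exact (IsFractionRing.injective (AddMonoidAlgebra ℤ (ℤ × ℤ)) Kf) (e3.symm.trans (map_zero _).symm)
  · intro h
    rw [h, map_zero] at e3
    have := (mul_eq_zero.1 e3).resolve_left hb0
    rw [this] at e1
    exact hφ (sub_eq_zero.1 e1)

end Pool.Agent.Lib.TwF
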