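import Mathlib

/-!
Planar diagram codes of unoriented link diagrams, the second Reidemeister move, kinks, smoothings and
crossing changes; the characterising properties of the Kauffman two-variable polynomial; twist families.
-/

namespace Pool.Agent.Lib.TwF

/-- The code of an unoriented link diagram: its crossings, its arcs, and the arc found at each of the four ends
of each crossing. The ends are numbered counterclockwise by the residues mod 4; the ends 0 and 2 belong to
the lower strand. An arc without ends is a closed curve without crossings. -/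
structure PD where
  C : Type
  A : Type
  inc : C → ZMod 4 → A

namespace PD

/-- `d` and `d'` are the two ends of one arc. -/
def Other (D : PD) (d d' : D.C × ZMod 4) : Prop := d ≠ d' ∧ D.inc d.1 d.2 = D.inc d'.1 d'.2

/-- one step around a face: go along the arc of `d`, then to the next end counterclockwise. -/
def FaceStep (D : PD) (d d' : D.C × ZMod 4) : Prop := D.Other d (d'.1, d'.2 - 1)

/-- two crossings joined by an arc. -/
def Adj (D : PD) (x y : D.C) : Prop := ∃ i j, D.Other (x, i) (y, j)

/-- `D` is the code of a link diagram in the plane: finite, every end is joined to exactly one other end, and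
Euler's formula (faces = crossings + 2 * connected components, as there are twice as many arcs with ends as
crossings). -/
structure Planar (D : PD) : Prop where
  finC : Finite D.C
  finA : Finite D.A
  two : ∀ d, ∃! d', D.Other d d'
  euler : Nat.card (Quot D.FaceStep) = Nat.card D.C + 2 * Nat.card (Quot D.Adj)

/-- the diagram with the crossing `c` switched. -/
noncomputable def switch (D : PD) (c : D.C) : PD := by
  classical
  exact { C := D.C, A := D.A, inc := fun x i => if x = c then D.inc x (i + 1) else D.inc x i }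

/-- the diagram with the crossing `c` removed, the ends `i`, `i+1` joined and the ends `i+2`, `i+3` joined. -/
def smooth (D : PD) (c : D.C) (i : ZMod 4) : PD where
  C := {x : D.C // x ≠ c}
  A := Quot (fun u v : D.A => (u = D.inc c i ∧ v = D.inc c (i + 1)) ∨
    (u = D.inc c (i + 2) ∧ v = D.inc c (i + 3)))
  inc x j := Quot.mk _ (D.inc x.1 j)

/-- the same diagram up to the names of crossings and arcs (and the choice of the end 0). -/
def Same (D D' : PD) : Prop := ∃ (e : D.C ≃ D'.C) (f : D.A ≃ D'.A) (r : D.C → ZMod 4),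
  (∀ x, r x = 0 ∨ r x = 2) ∧ ∀ x i, D'.inc (e x) (i + r x) = f (D.inc x i)

/-- `D'` comes from `D` by a second Reidemeister move: the ends `i`, `i+1` of `v` are joined to the ends `j+1`, `j`
of `w`, one strand is the lower one at both crossings, and both crossings are removed. -/
def MoveTwo (D D' : PD) : Prop := ∃ (v w : D.C) (h : w ≠ v) (i j : ZMod 4), (i + j = 1 ∨ i + j = 3) ∧
  D.inc v i = D.inc w (j + 1) ∧ D.inc v (i + 1) = D.inc w j ∧
  D' = (D.smooth v (i + 1)).smooth ⟨w, h⟩ (j + 1)

/-- regular isotopy (second moves and renamings between planar diagrams suffice here). -/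
def Reg : PD → PD → Prop := Relation.EqvGen fun D D' => D.Planar ∧ D'.Planar ∧ (Same D D' ∨ MoveTwo D D')

/-- an orientation: `out x i` says that the strand leaves the crossing `x` at its end `i`. -/
structure Orientation (D : PD) where
  out : D.C → ZMod 4 → Bool
  opp : ∀ x i, out x (i + 2) = !out x i
  arc : ∀ d d', D.Other d d' → out d.1 d.2 = !out d'.1 d'.2

/-- the writhe. -/
noncomputable def writhe {D : PD} (o : D.Orientation) : ℤ :=
  ∑ᶠ x : D.C, if o.out x 0 = o.out x 3 then (1 : ℤ) else -1

end PD

/-- the ring of Laurent polynomials in `a` and `z` with integer coefficients. -/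
abbrev R := AddMonoidAlgebra ℤ (ℤ × ℤ)

/-- the monomial `a^i z^j`. -/
noncomputable def mon (i j : ℤ) : R := AddMonoidAlgebra.single (i, j) 1

/-- `L` has the characterising properties of the unnormalised Kauffman polynomial
(invariance under the third move is not needed and not asked). -/
structure IsKauffman (L : PD → R) : Prop where
  circle : ∀ D : PD, IsEmpty D.C → Nat.card D.A = 1 → L D = 1
  same : ∀ D D' : PD, D.Planar → D'.Planar → D.Same D' → L D = L D'
  two : ∀ D D' : PD, D.Planar → D'.Planar → D.MoveTwo D' → L D = L D'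
  pos : ∀ (D : PD) (v : D.C) (i : ZMod 4), D.Planar → (i = 0 ∨ i = 2) → D.inc v i = D.inc v (i + 1) →
    L D = mon 1 0 * L (D.smooth v (i + 1))
  neg : ∀ (D : PD) (v : D.C) (i : ZMod 4), D.Planar → (i = 1 ∨ i = 3) → D.inc v i = D.inc v (i + 1) →
    L D = mon (-1) 0 * L (D.smooth v (i + 1))
  skein : ∀ (D : PD) (v : D.C), D.Planar →
    L D + L (D.switch v) = mon 0 1 * (L (D.smooth v 0) + L (D.smooth v 1))

/-- `D p` (`p i` half twists in the `i`-th twist region, for all integers `p i`) is a twist family. -/
structure IsTwistFamily {k : ℕ} (D : (Fin k → ℤ) → PD) : Prop where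
  twist : ∀ i, ∃ E : (Fin k → ℤ) → PD,
    (∀ p, ∃ (X : PD) (c : X.C), X.Planar ∧ X.Reg (D (p + Pi.single i 1)) ∧
      (X.switch c).Reg (D (p - Pi.single i 1)) ∧ (X.smooth c 0).Reg (D p) ∧ (X.smooth c 1).Reg (E p)) ∧
    ∀ p, ∃ (Y : PD) (y : Y.C) (j : ZMod 4), Y.Planar ∧ (j = 1 ∨ j = 3) ∧ Y.inc y j = Y.inc y (j + 1) ∧
      Y.Reg (E (p + Pi.single i 1)) ∧ (Y.smooth y (j + 1)).Reg (E p)

/-- a finite union of cosets of subgroups with torsion-free quotient, all of them `Good`. -/
def IsCosetUnion {k : ℕ} (Good : AddSubgroup (Fin k → ℤ) → Prop) (Z : Set (Fin k → ℤ)) : Prop :=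
  ∃ S : Finset (AddSubgroup (Fin k → ℤ) × (Fin k → ℤ)),
    (∀ t ∈ S, Good t.1 ∧ ∀ (n : ℤ) (q : Fin k → ℤ), n ≠ 0 → n • q ∈ t.1 → q ∈ t.1) ∧
    ∀ p, p ∈ Z ↔ ∃ t ∈ S, p - t.2 ∈ t.1

/-- all vectors of `H` satisfy the two linear equations given by some `ε : {1,…,k} → {-1,0,1}`. -/
def Special {k : ℕ} (σ : Fin k → ℤ) (H : AddSubgroup (Fin k → ℤ)) : Prop :=
  ∃ ε : Fin k → ℤ, (∀ i, ε i = -1 ∨ ε i = 0 ∨ ε i = 1) ∧ ∀ q ∈ H,
    ∑ i, ε i * q i = 0 ∧ ∑ i, σ i * q i + 2 * ∑ i, (if ε i = 0 then q i else 0) = 0

/-- third-order recurrence in the direction `i` with roots `x`, `y`, `z`. -/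
def Rec {K : Type} [CommRing K] {k : ℕ} (x y z : K) (f : (Fin k → ℤ) → K) : Prop :=
  ∀ (i : Fin k) (p : Fin k → ℤ), f (p + Pi.single i 3) - (x + y + z) * f (p + Pi.single i 2) +
    (x * y + y * z + z * x) * f (p + Pi.single i 1) - x * y * z * f p = 0

end Pool.Agent.Lib.TwF
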