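import Pool.Agent.Lib.TwF.Assembly

namespace Pool.Agent.Lib.TwF

open PD

theorem IsKauffman.reg {L : PD → R} (hL : IsKauffman L) {D D' : PD} (h : D.Reg D') : L D = L D' := by
  induction h with
  | rel x y h =>
    obtain ⟨h1, h2, h | h⟩ := h
    · exact hL.same _ _ h1 h2 h
    · exact hL.two _ _ h1 h2 h
  | refl x => rfl
  | symm x y _ ih => exact ih.symm
  | trans x y z _ _ ih1 ih2 => exact ih1.trans ih2

theorem recurrence {k : ℕ} {D : (Fin k → ℤ) → PD} (hD : IsTwistFamily D) {L : PD → R} (hL : IsKauffman L)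
    (i : Fin k) (p : Fin k → ℤ) : L (D (p + Pi.single i 3)) -
      (mon (-1) 0 + mon 0 1) * L (D (p + Pi.single i 2)) +
      (1 + mon (-1) 0 * mon 0 1) * L (D (p + Pi.single i 1)) - mon (-1) 0 * L (D p) = 0 := by
  obtain ⟨E, h1, h2⟩ := hD.twist i
  have key : ∀ p, L (D (p + Pi.single i 1)) + L (D (p - Pi.single i 1)) = mon 0 1 * (L (D p) + L (E p)) := by
    intro p
    obtain ⟨X, c, hX, a1, a2, a3, a4⟩ := h1 p
    rw [← hL.reg a1, ← hL.reg a2, ← hL.reg a3, ← hL.reg a4]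
    exact hL.skein X c hX
  have key2 : ∀ p, L (E (p + Pi.single i 1)) = mon (-1) 0 * L (E p) := by
    intro p
    obtain ⟨Y, y, j, hY, hj, hinc, b1, b2⟩ := h2 p
    rw [← hL.reg b1, ← hL.reg b2]
    exact hL.neg Y y j hY hj hinc
  have e3 : p + Pi.single i (3 : ℤ) = p + Pi.single i 2 + Pi.single i 1 := by
    rw [add_assoc, ← Pi.single_add]; norm_num
  have e2 : p + Pi.single i (2 : ℤ) = p + Pi.single i 1 + Pi.single i 1 := by
    rw [add_assoc, ← Pi.single_add]; norm_num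
  have k1 := key (p + Pi.single i 1)
  have k2 := key (p + Pi.single i 2)
  have k3 := key2 (p + Pi.single i 1)
  rw [← e2, add_sub_cancel_right] at k1
  rw [← e3, show p + Pi.single i (2 : ℤ) - Pi.single i 1 = p + Pi.single i 1 by
    rw [e2, add_sub_cancel_right]] at k2
  rw [← e2] at k3
  rw [k3] at k2
  linear_combination k2 - mon (-1) 0 * k1

theorem main {k : ℕ} (D : (Fin k → ℤ) → PD) (hD : IsTwistFamily D) (L : PD → R) (hL : IsKauffman L)
    (s : Fin k → ℤ) (o : ∀ p : Fin k → ℤ, (D (s + 2 • p)).Orientation) (w0 : ℤ) (σ : Fin k → ℤ)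
    (hw : ∀ p, writhe (o p) = w0 + ∑ i, σ i * p i) (P : R) (hP : P ≠ 0) :
    IsCosetUnion (Special σ) {p : Fin k → ℤ | mon (-writhe (o p)) 0 * L (D (s + 2 • p)) = P} := by
  have h := assembly (fun p => L (D p)) (recurrence hD hL) s w0 σ P hP
  simpa only [hw] using h

end Pool.Agent.Lib.TwF
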