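import Pool.Agent.Lib.TwF.ZeroSet

namespace Pool.Agent.Lib.TwF

open Finset

/-- there are finitely many subgroups (all `Good`, with torsion-free quotient) such that every nonzero value of
`F` is taken on a union of cosets, at most one of each of them. -/
def IsUniform {k : ℕ} {V : Type} [Zero V] (Good : AddSubgroup (Fin k → ℤ) → Prop)
    (F : (Fin k → ℤ) → V) : Prop :=
  ∃ (N : ℕ) (H : Fin N → AddSubgroup (Fin k → ℤ)),
    (∀ t, Good (H t) ∧ ∀ (n : ℤ) (q : Fin k → ℤ), n ≠ 0 → n • q ∈ H t → q ∈ H t) ∧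
    ∀ P : V, P ≠ 0 → ∃ (T : Finset (Fin N)) (v : Fin N → Fin k → ℤ),
      ∀ p, F p = P ↔ ∃ t ∈ T, p - v t ∈ H t

section generic

variable {G : Type} [AddCommGroup G] {ι : Type} [Fintype ι]

private lemma gcoeff_shift (v m : ℤ × ℤ) (C : AddMonoidAlgebra ℤ (ℤ × ℤ)) :
    (AddMonoidAlgebra.single v 1 * C).coeff m = C.coeff (-v + m) := by
  rw [AddMonoidAlgebra.coeff_single_mul_apply, one_mul]

open Classical in
/-- the differences of exponents -/
private noncomputable def gdif (C : ι → AddMonoidAlgebra ℤ (ℤ × ℤ)) : Finset (ℤ × ℤ) :=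
  (univ : Finset (ι × ι)).biUnion fun t =>
    ((C t.1).coeff.support ×ˢ (C t.2).coeff.support).image fun u => u.2 - u.1

private lemma mem_gdif {C : ι → AddMonoidAlgebra ℤ (ℤ × ℤ)} {i j : ι} {s s' : ℤ × ℤ}
    (hs : (C i).coeff s ≠ 0) (hs' : (C j).coeff s' ≠ 0) : s' - s ∈ gdif C := by
  classical
  unfold gdif
  refine mem_biUnion.2 ⟨(i, j), mem_univ _, mem_image.2 ⟨(s, s'), ?_, rfl⟩⟩
  exact mem_product.2 ⟨Finsupp.mem_support_iff.2 hs, Finsupp.mem_support_iff.2 hs'⟩

open Classical in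
/-- the pattern of a point -/
private noncomputable def gpat (l : ι → G →+ ℤ × ℤ) (Δ : Finset (ℤ × ℤ)) (p : G) :
    ι × ι → Option Δ := fun t =>
  if h : l t.1 p - l t.2 p ∈ Δ then some ⟨l t.1 p - l t.2 p, h⟩ else none

/-- the subgroup of a pattern -/
private def gsg (l : ι → G →+ ℤ × ℤ) (Δ : Finset (ℤ × ℤ)) (τ : ι × ι → Option Δ) :
    AddSubgroup G where
  carrier := {q | ∀ t : ι × ι, τ t ≠ none → l t.1 q = l t.2 q}
  zero_mem' := fun t _ => by rw [map_zero, map_zero]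
  add_mem' := fun {a b} ha hb t ht => by rw [map_add, map_add, ha t ht, hb t ht]
  neg_mem' := fun {a} ha t ht => by rw [map_neg, map_neg, ha t ht]

omit [Fintype ι] in
private lemma gsg_saturated (l : ι → G →+ ℤ × ℤ) (Δ : Finset (ℤ × ℤ)) (τ : ι × ι → Option Δ)
    (n : ℤ) (q : G) (hn : n ≠ 0) (h : n • q ∈ gsg l Δ τ) : q ∈ gsg l Δ τ := by
  intro t ht
  have h1 := h t ht
  rw [map_zsmul, map_zsmul] at h1
  have e1 := congrArg Prod.fst h1
  have e2 := congrArg Prod.snd h1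
  simp only [Prod.smul_fst, Prod.smul_snd, smul_eq_mul] at e1 e2
  exact Prod.ext (mul_left_cancel₀ hn e1) (mul_left_cancel₀ hn e2)

omit [Fintype ι] in
private lemma gpat_ne (l : ι → G →+ ℤ × ℤ) (Δ : Finset (ℤ × ℤ)) (p : G) (t : ι × ι)
    (h : l t.1 p - l t.2 p ∈ Δ) : gpat l Δ p t ≠ none := by
  simp [gpat, h]

omit [Fintype ι] in
private lemma gpat_sub (l : ι → G →+ ℤ × ℤ) (Δ : Finset (ℤ × ℤ)) {p p' : G}
    (h : gpat l Δ p = gpat l Δ p') : p - p' ∈ gsg l Δ (gpat l Δ p) := by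
  classical
  intro t ht
  have h1 : l t.1 p - l t.2 p ∈ Δ := by
    by_contra h2
    exact ht (by simp [gpat, h2])
  have h2 : l t.1 p' - l t.2 p' ∈ Δ := by
    by_contra h2
    rw [h] at ht
    exact ht (by simp [gpat, h2])
  have h3 := congrFun h t
  simp only [gpat, dif_pos h1, dif_pos h2, Option.some.injEq, Subtype.mk.injEq] at h3
  rw [map_sub, map_sub]
  have e1 : l t.1 p - l t.1 p' - (l t.2 p - l t.2 p') =
      (l t.1 p - l t.2 p) - (l t.1 p' - l t.2 p') := by abel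
  rw [← sub_eq_zero, e1, h3, sub_self]

private lemma gco (l : ι → G →+ ℤ × ℤ) (C : ι → AddMonoidAlgebra ℤ (ℤ × ℤ)) (r : G) (m : ℤ × ℤ) :
    (∑ j, AddMonoidAlgebra.single (l j r) 1 * C j).coeff m =
      ∑ j, (C j).coeff (-(l j r) + m) := by
  rw [AddMonoidAlgebra.coeff_sum, Finsupp.finsetSum_apply]
  exact Finset.sum_congr rfl fun j _ => gcoeff_shift _ _ _

private lemma gzs_add (l : ι → G →+ ℤ × ℤ) (C : ι → AddMonoidAlgebra ℤ (ℤ × ℤ))
    (p q : G) (hp : ∑ j, AddMonoidAlgebra.single (l j p) 1 * C j = 0)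
    (hq : q ∈ gsg l (gdif C) (gpat l (gdif C) p)) :
    ∑ j, AddMonoidAlgebra.single (l j (p + q)) 1 * C j = 0 := by
  classical
  have hp' : ∀ m, ∑ j, (C j).coeff (-(l j p) + m) = 0 := by
    intro m
    rw [← gco, hp]
    rfl
  apply AddMonoidAlgebra.ext
  refine Finsupp.ext fun m => ?_
  rw [gco]
  show ∑ j, (C j).coeff (-(l j (p + q)) + m) = 0
  rw [← Finset.sum_fiberwise_of_maps_to (s := univ) (t := univ.image fun j => l j q)
    (g := fun j => l j q) (fun j _ => mem_image_of_mem _ (mem_univ j))]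
  refine Finset.sum_eq_zero fun g _ => ?_
  by_cases hex : ∃ i, l i q = g ∧ (C i).coeff (-(l i p) + (-g + m)) ≠ 0
  · obtain ⟨i, hi, hi0⟩ := hex
    rw [← hp' (-g + m), Finset.sum_filter]
    refine Finset.sum_congr rfl fun j _ => ?_
    split_ifs with hj
    · rw [(l j).map_add p q, hj]
      congr 1
      abel
    · by_contra hj0
      apply hj
      have hj1 : (C j).coeff (-(l j p) + (-g + m)) ≠ 0 := fun h => hj0 h.symm
      have h2 := mem_gdif hj1 hi0
      have h3 : l j p - l i p ∈ gdif C := by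
        have e : -(l i p) + (-g + m) - (-(l j p) + (-g + m)) = l j p - l i p := by abel
        rwa [e] at h2
      have h4 := hq (j, i) (gpat_ne l _ p (j, i) h3)
      exact h4.trans hi
  · push Not at hex
    refine Finset.sum_eq_zero fun j hj => ?_
    have hj' : l j q = g := (mem_filter.1 hj).2
    have h1 := hex j hj'
    rw [(l j).map_add p q, hj']
    have e : -(l j p + g) + m = -(l j p) + (-g + m) := by abel
    rw [e]
    exact h1

end generic

theorem zero_pair {k : ℕ} {ι : Type} [Fintype ι] (l : ι → (Fin k → ℤ) →+ ℤ × ℤ)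
    (C : ι → AddMonoidAlgebra ℤ (ℤ × ℤ)) :
    IsUniform (fun H => ∃ j, ∀ q ∈ H, l j q = 0)
      (fun p : Fin k → ℤ => ∑ j, AddMonoidAlgebra.single (l j p) 1 * C j) := by
  classical
  set F : (Fin k → ℤ) → AddMonoidAlgebra ℤ (ℤ × ℤ) :=
    fun p => ∑ j, AddMonoidAlgebra.single (l j p) 1 * C j with hF
  let G := (Fin k → ℤ) × (Fin k → ℤ)
  let l' : ι ⊕ ι → G →+ ℤ × ℤ := fun t => t.elim (fun j => (l j).comp (AddMonoidHom.fst _ _))
    (fun j => (l j).comp (AddMonoidHom.snd _ _))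
  let C' : ι ⊕ ι → AddMonoidAlgebra ℤ (ℤ × ℤ) := fun t => t.elim C (fun j => - C j)
  have hS : ∀ p p' : Fin k → ℤ,
      ∑ t, AddMonoidAlgebra.single (l' t (p, p')) 1 * C' t = F p - F p' := by
    intro p p'
    rw [Fintype.sum_sum_type]
    have h1 : ∀ j, AddMonoidAlgebra.single (l' (Sum.inl j) (p, p')) 1 * C' (Sum.inl j) =
        AddMonoidAlgebra.single (l j p) 1 * C j := fun j => rfl
    have h2 : ∀ j, AddMonoidAlgebra.single (l' (Sum.inr j) (p, p')) 1 * C' (Sum.inr j) =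
        - (AddMonoidAlgebra.single (l j p') 1 * C j) := fun j => mul_neg _ _
    rw [Finset.sum_congr rfl fun j _ => h1 j, Finset.sum_congr rfl fun j _ => h2 j,
      Finset.sum_neg_distrib, ← sub_eq_add_neg]
  set Δ := gdif C' with hΔ
  let 𝒯 := {τ : (ι ⊕ ι) × (ι ⊕ ι) → Option Δ //
    ∃ p p' : Fin k → ℤ, F p = F p' ∧ F p ≠ 0 ∧ gpat l' Δ ((p, p') : G) = τ}
  let K : 𝒯 → AddSubgroup (Fin k → ℤ) := fun τ =>
    (gsg l' Δ τ.1).comap (AddMonoidHom.inl _ _)
  have hK : ∀ (τ : 𝒯) (q : Fin k → ℤ), q ∈ K τ ↔ ((q, 0) : G) ∈ gsg l' Δ τ.1 := fun τ q => Iff.rfl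
  let e : Fin (Fintype.card 𝒯) ≃ 𝒯 := (Fintype.equivFin 𝒯).symm
  refine ⟨Fintype.card 𝒯, fun t => K (e t), ?_, ?_⟩
  · intro t
    refine ⟨?_, ?_⟩
    · obtain ⟨p, p', h1, h2, h3⟩ := (e t).2
      obtain ⟨m, hm⟩ : ∃ m, (F p).coeff m ≠ 0 := by
        by_contra hcon
        push Not at hcon
        exact h2 (AddMonoidAlgebra.ext (Finsupp.ext hcon))
      have hm' : (F p').coeff m ≠ 0 := by rw [← h1]; exact hm
      rw [hF] at hm hm'
      simp only [gco] at hm hm'
      obtain ⟨j, _, hj⟩ := Finset.exists_ne_zero_of_sum_ne_zero hm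
      obtain ⟨j', _, hj'⟩ := Finset.exists_ne_zero_of_sum_ne_zero hm'
      have h4 : (C' (Sum.inl j)).coeff (-(l j p) + m) ≠ 0 := hj
      have h5 : (C' (Sum.inr j')).coeff (-(l j' p') + m) ≠ 0 := by
        show (-(C j')).coeff (-(l j' p') + m) ≠ 0
        intro h
        apply hj'
        have h6 : (-(C j')).coeff (-(l j' p') + m) = - (C j').coeff (-(l j' p') + m) := rfl
        rw [h6] at h
        exact neg_eq_zero.1 h
      have h7 := mem_gdif h4 h5
      have h8 : l' (Sum.inl j) ((p, p') : G) - l' (Sum.inr j') ((p, p') : G) ∈ Δ := by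
        have e8 : -(l j' p') + m - (-(l j p) + m) =
            l' (Sum.inl j) ((p, p') : G) - l' (Sum.inr j') ((p, p') : G) := by
          show -(l j' p') + m - (-(l j p) + m) = l j p - l j' p'
          abel
        rwa [e8] at h7
      refine ⟨j, fun q hq => ?_⟩
      have h9 := (hK _ q).1 hq (Sum.inl j, Sum.inr j') (by
        rw [← h3]
        exact gpat_ne l' Δ _ (Sum.inl j, Sum.inr j') h8)
      have h10 : l j q = l j' 0 := h9
      rw [h10, map_zero]
    · intro n q hn hq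
      rw [hK] at hq ⊢
      refine gsg_saturated l' Δ (e t).1 n ((q, 0) : G) hn ?_
      have h1 : n • ((q, 0) : G) = (n • q, 0) := by
        rw [Prod.smul_mk, smul_zero]
      rw [h1]
      exact hq
  · intro P hP
    by_cases hex : ∃ p0, F p0 = P
    · obtain ⟨p0, hp0⟩ := hex
      let T : Finset (Fin (Fintype.card 𝒯)) :=
        univ.filter fun t => ∃ p, F p = P ∧ gpat l' Δ ((p, p0) : G) = (e t).1
      let v : Fin (Fintype.card 𝒯) → Fin k → ℤ := fun t =>
        if h : ∃ p, F p = P ∧ gpat l' Δ ((p, p0) : G) = (e t).1 then h.choose else 0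
      have hv : ∀ t ∈ T, F (v t) = P ∧ gpat l' Δ ((v t, p0) : G) = (e t).1 := by
        intro t ht
        have h1 := (mem_filter.1 ht).2
        have h2 : v t = h1.choose := dif_pos h1
        rw [h2]
        exact h1.choose_spec
      refine ⟨T, v, fun p => ⟨fun hp => ?_, ?_⟩⟩
      · have h1 : F p = F p0 := hp.trans hp0.symm
        let τ : 𝒯 := ⟨gpat l' Δ ((p, p0) : G), p, p0, h1, by rw [hp]; exact hP, rfl⟩
        have h2 : e (e.symm τ) = τ := e.apply_symm_apply τ
        have h3 : e.symm τ ∈ T := mem_filter.2 ⟨mem_univ _, p, hp, by rw [h2]⟩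
        refine ⟨e.symm τ, h3, ?_⟩
        show p - v (e.symm τ) ∈ K (e (e.symm τ))
        obtain ⟨_, h5⟩ := hv _ h3
        rw [h2] at h5
        rw [h2, hK]
        have h6 := gpat_sub l' Δ (p := ((p, p0) : G)) (p' := ((v (e.symm τ), p0) : G)) h5.symm
        have h7 : ((p, p0) : G) - ((v (e.symm τ), p0) : G) = (p - v (e.symm τ), 0) := by
          rw [Prod.mk_sub_mk, sub_self]
        rw [h7] at h6
        exact h6
      · rintro ⟨t, ht, hpt⟩
        obtain ⟨h4, h5⟩ := hv t ht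
        have h6 : ((p - v t, 0) : G) ∈ gsg l' Δ (gpat l' Δ ((v t, p0) : G)) := by
          rw [h5]
          exact hpt
        have h7 := gzs_add l' C' ((v t, p0) : G) (p - v t, 0)
          (by rw [hS, h4, hp0, sub_self]) h6
        have h8 : ((v t, p0) : G) + (p - v t, 0) = (p, p0) := by
          rw [Prod.mk_add_mk, add_zero, add_sub_cancel]
        rw [h8, hS, sub_eq_zero] at h7
        exact h7.trans hp0
    · refine ⟨∅, fun _ => 0, fun p => ⟨fun hp => absurd ⟨p, hp⟩ hex, ?_⟩⟩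
      rintro ⟨t, ht, _⟩
      exact absurd ht (Finset.notMem_empty t)

end Pool.Agent.Lib.TwF
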