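import Pool.Agent.Lib.TwF.Pair
import Pool.Agent.Lib.TwF.Assembly

namespace Pool.Agent.Lib.TwF

/-- uniform form of `assembly`. -/
theorem uassembly {k : ℕ} (f : (Fin k → ℤ) → R)
    (hf : ∀ (i : Fin k) (p : Fin k → ℤ), f (p + Pi.single i 3) -
      (mon (-1) 0 + mon 0 1) * f (p + Pi.single i 2) +
      (1 + mon (-1) 0 * mon 0 1) * f (p + Pi.single i 1) - mon (-1) 0 * f p = 0)
    (s : Fin k → ℤ) (w0 : ℤ) (σ : Fin k → ℤ) :
    IsUniform (Special σ) (fun p : Fin k → ℤ => mon (-(w0 + ∑ i, σ i * p i)) 0 * f (s + 2 • p)) := by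
  classical
  obtain ⟨φ, hφ, h1, h2⟩ := exists_subst
  have hyz : mo (0, 1) * mo (0, -1) = 1 := by
    rw [← mo_add]
    exact mo_zero
  have hrec : Rec (mo (-1, 0)) (mo (0, 1)) (mo (0, -1)) (fun p => φ (f p)) := by
    intro i p
    have h := congrArg φ (hf i p)
    simp only [map_sub, map_add, map_mul, map_zero, map_one, h1, h2] at h
    dsimp only
    linear_combination h + (φ (f (p + Pi.single i 1)) - mo (-1, 0) * φ (f p)) * hyz
  have hinj : Function.Injective mo := by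
    intro u v h
    have := IsFractionRing.injective (AddMonoidAlgebra ℤ (ℤ × ℤ)) Kf h
    exact (AddMonoidAlgebra.single_left_injective one_ne_zero) this
  obtain ⟨c, hc⟩ := closed (mo (-1, 0)) (mo (0, 1)) (mo (0, -1)) (mo_ne _) (mo_ne _) (mo_ne _)
    (fun h => by simpa using hinj h) (fun h => by simpa using hinj h) (fun h => by simpa using hinj h)
    (fun p => φ (f p)) hrec
  obtain ⟨g, g1⟩ : ∃ g : (Fin k → Fin 3) → Kf, ∀ e, g e = mo (-w0, 0) * mo (ex e s) * c e :=
    ⟨fun e => mo (-w0, 0) * mo (ex e s) * c e, fun e => rfl⟩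
  obtain ⟨b, hb⟩ := IsLocalization.exist_integer_multiples_of_finite
    (nonZeroDivisors (AddMonoidAlgebra ℤ (ℤ × ℤ))) g
  choose C hC using hb
  have hal := IsFractionRing.injective (AddMonoidAlgebra ℤ (ℤ × ℤ)) Kf
  have hb0 : algebraMap (AddMonoidAlgebra ℤ (ℤ × ℤ)) Kf b ≠ 0 := by
    intro h
    have := hal (h.trans (map_zero _).symm)
    exact nonZeroDivisors.coe_ne_zero b this
  obtain ⟨N, H, hH1, hH2⟩ := zero_pair (fun e => lin σ (some e)) C
  have e1 : ∀ p : Fin k → ℤ, φ (mon (-(w0 + ∑ i, σ i * p i)) 0 * f (s + 2 • p)) =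
      ∑ e, mo (lin σ (some e) p) * g e := by
    intro p
    rw [map_mul, h1]
    have := hc (s + 2 • p)
    rw [this, Finset.mul_sum]
    refine Finset.sum_congr rfl fun e _ => ?_
    rw [prod_roots, lin_some, g1]
    have e2 := exp_eq w0 (∑ i, σ i * p i) e s p
    calc mo (-(w0 + ∑ i, σ i * p i), 0) * (c e * mo (ex e (s + 2 • p)))
        = (mo (-(w0 + ∑ i, σ i * p i), 0) * mo (ex e (s + 2 • p))) * c e := by ring
      _ = _ := by rw [e2]; ring
  have e3 : ∀ p : Fin k → ℤ, algebraMap (AddMonoidAlgebra ℤ (ℤ × ℤ)) Kf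
      (∑ e, AddMonoidAlgebra.single (lin σ (some e) p) 1 * C e) =
      algebraMap (AddMonoidAlgebra ℤ (ℤ × ℤ)) Kf b *
        φ (mon (-(w0 + ∑ i, σ i * p i)) 0 * f (s + 2 • p)) := by
    intro p
    rw [e1, map_sum, Finset.mul_sum]
    refine Finset.sum_congr rfl fun j _ => ?_
    rw [map_mul, hC j, Algebra.smul_def]
    unfold mo
    ring
  refine ⟨N, H, fun t => ⟨?_, (hH1 t).2⟩, fun P hP => ?_⟩
  · obtain ⟨e, he⟩ := (hH1 t).1
    exact special_of σ e (H t) fun q hq => by rw [lin_none]; exact (he q hq).symm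
  · by_cases hQ : ∃ Q, algebraMap (AddMonoidAlgebra ℤ (ℤ × ℤ)) Kf Q =
        algebraMap (AddMonoidAlgebra ℤ (ℤ × ℤ)) Kf b * φ P
    · obtain ⟨Q, hQ⟩ := hQ
      have hQ0 : Q ≠ 0 := by
        intro h
        rw [h, map_zero] at hQ
        rcases mul_eq_zero.1 hQ.symm with h4 | h4
        · exact hb0 h4
        · exact hP (hφ (h4.trans (map_zero φ).symm))
      obtain ⟨T, v, hT⟩ := hH2 Q hQ0
      refine ⟨T, v, fun p => ?_⟩
      rw [← hT p]
      constructor
      · intro h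
        apply hal
        rw [e3, hQ]
        exact congrArg (fun x => algebraMap (AddMonoidAlgebra ℤ (ℤ × ℤ)) Kf b * φ x) h
      · intro h
        apply hφ
        have h5 := e3 p
        rw [show (∑ e, AddMonoidAlgebra.single (lin σ (some e) p) 1 * C e) = Q from h, hQ] at h5
        exact (mul_left_cancel₀ hb0 h5).symm
    · refine ⟨∅, fun _ => 0, fun p => ⟨fun h => ?_, fun ⟨t, ht, _⟩ => absurd ht (Finset.notMem_empty t)⟩⟩
      exfalso
      exact hQ ⟨_, (e3 p).trans (congrArg (fun x => algebraMap (AddMonoidAlgebra ℤ (ℤ × ℤ)) Kf b * φ x) h)⟩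

end Pool.Agent.Lib.TwF
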