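import Pool.Agent.Lib.TwF.WDefs

namespace Pool.Agent.Lib.TwF

open Pool.Agent.Lib.Skein

private lemma wrun_append (u v : Word) (n : ℕ) : run (u ++ v) n = (run u n).bind (run v) := by
  induction u generalizing n with
  | nil => rfl
  | cons a u ih =>
    obtain ⟨k, i⟩ := a
    simp only [List.cons_append, run]
    split_ifs with h
    · exact ih _
    · rfl

private lemma run_of_ori {w : Word} {l l' : List Bool} {x : ℤ} (h : Ori w l l' x) :
    run w l.length = some l'.length := by
  induction h with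
  | nil l => rfl
  | cup w b l1 l2 l' x _ ih =>
    simp only [run, Kind.inn, Kind.out]
    rw [if_pos (by simp)]
    simp only [List.length_append, List.length_cons] at ih ⊢
    rw [← ih]
    congr 1
  | cap w b l1 l2 l' x _ ih =>
    simp only [run, Kind.inn, Kind.out]
    rw [if_pos (by simp)]
    simp only [List.length_append, List.length_cons] at ih ⊢
    rw [← ih]
    congr 1
  | cr s w b c l1 l2 l' x _ ih =>
    simp only [run, Kind.inn, Kind.out]
    rw [if_pos (by simp)]
    simp only [List.length_append, List.length_cons] at ih ⊢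
    rw [← ih]
    congr 1

private lemma ori_append {w1 w2 : Word} {l l' l'' : List Bool} {y z : ℤ} (h1 : Ori w1 l l' y)
    (h2 : Ori w2 l' l'' z) : Ori (w1 ++ w2) l l'' (y + z) := by
  induction h1 with
  | nil l => simpa using h2
  | cup w b l1 l2 l' x _ ih => exact Ori.cup _ b l1 l2 _ _ (ih h2)
  | cap w b l1 l2 l' x _ ih => exact Ori.cap _ b l1 l2 _ _ (ih h2)
  | cr s w b c l1 l2 l' x _ ih =>
    rw [add_assoc]
    exact Ori.cr s _ b c l1 l2 _ _ (ih h2)

private lemma ori_split : ∀ (w1 : Word) {w2 : Word} {l l'' : List Bool} {x : ℤ},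
    Ori (w1 ++ w2) l l'' x → ∃ l' y z, Ori w1 l l' y ∧ Ori w2 l' l'' z ∧ x = y + z := by
  intro w1
  induction w1 with
  | nil =>
    intro w2 l l'' x h
    exact ⟨l, 0, x, Ori.nil l, h, by ring⟩
  | cons a w1 ih =>
    intro w2 l l'' x h
    rw [List.cons_append] at h
    cases h with
    | cup w b l1 l2 l' x h =>
      obtain ⟨l', y, z, h1, h2, h3⟩ := ih h
      exact ⟨l', y, z, Ori.cup _ b l1 l2 _ _ h1, h2, h3⟩
    | cap w b l1 l2 l' x h =>
      obtain ⟨l', y, z, h1, h2, h3⟩ := ih h
      exact ⟨l', y, z, Ori.cap _ b l1 l2 _ _ h1, h2, h3⟩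
    | cr s w b c l1 l2 l' x h =>
      obtain ⟨l', y, z, h1, h2, h3⟩ := ih h
      exact ⟨l', sgn s b c + y, z, Ori.cr s _ b c l1 l2 _ _ h1, h2, by rw [h3]; ring⟩

private lemma ori_cons_cr {s : Bool} {i : ℕ} {w : Word} {l l' : List Bool} {x : ℤ}
    (h : Ori ((Kind.cr s, i) :: w) l l' x) : ∃ b c l1 l2 y, l = l1 ++ b :: c :: l2 ∧
      l1.length = i ∧ Ori w (l1 ++ c :: b :: l2) l' y ∧ x = sgn s b c + y := by
  cases h with
  | cr s w b c l1 l2 l' x h => exact ⟨b, c, l1, l2, x, rfl, rfl, h, rfl⟩

private lemma sgn_comm (s b c : Bool) : sgn s b c = sgn s c b := by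
  cases s <;> cases b <;> cases c <;> rfl

private lemma sgn_false (b c : Bool) : sgn false b c = -sgn true b c := by
  cases b <;> cases c <;> rfl

private lemma ori_rep (s : Bool) (l1 l2 : List Bool) : ∀ (N : ℕ) (b c : Bool),
    Ori (List.replicate N (Kind.cr s, l1.length)) (l1 ++ b :: c :: l2)
      (l1 ++ (if Even N then b :: c :: l2 else c :: b :: l2)) (N * sgn s b c) := by
  intro N
  induction N with
  | zero =>
    intro b c
    simpa using Ori.nil (l1 ++ b :: c :: l2)
  | succ N ih =>
    intro b c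
    have h := Ori.cr s (List.replicate N (Kind.cr s, l1.length)) b c l1 l2 _ _ (ih c b)
    have e1 : ((N + 1 : ℕ) : ℤ) * sgn s b c = sgn s b c + N * sgn s c b := by
      rw [sgn_comm s c b]
      push_cast
      ring
    have e2 : (if Even (N + 1) then b :: c :: l2 else c :: b :: l2) =
        (if Even N then c :: b :: l2 else b :: c :: l2) := by
      by_cases hN : Even N
      · rw [if_neg (by rw [Nat.even_add_one]; exact not_not.2 hN), if_pos hN]
      · rw [if_pos (Nat.even_add_one.2 hN), if_neg hN]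
    rw [List.replicate_succ, e1, e2]
    exact h

private lemma ori_rep_unique (s : Bool) (l1 l2 : List Bool) : ∀ (N : ℕ) (b c : Bool)
    (l' : List Bool) (x : ℤ),
    Ori (List.replicate N (Kind.cr s, l1.length)) (l1 ++ b :: c :: l2) l' x →
      l' = l1 ++ (if Even N then b :: c :: l2 else c :: b :: l2) ∧ x = N * sgn s b c := by
  intro N
  induction N with
  | zero =>
    intro b c l' x h
    rw [List.replicate_zero] at h
    cases h
    simp
  | succ N ih =>
    intro b c l' x h
    rw [List.replicate_succ] at h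
    obtain ⟨b', c', l1', l2', y, e1, e2, h', e3⟩ := ori_cons_cr h
    obtain ⟨e4, e5⟩ := List.append_inj e1.symm e2
    simp only [List.cons.injEq] at e5
    obtain ⟨rfl, rfl, rfl⟩ := e5
    subst e4
    obtain ⟨i1, i2⟩ := ih _ _ _ _ h'
    refine ⟨?_, ?_⟩
    · rw [i1]
      by_cases hN : Even N
      · rw [if_pos hN, if_neg (by rw [Nat.even_add_one]; exact not_not.2 hN)]
      · rw [if_neg hN, if_pos (Nat.even_add_one.2 hN)]
    · rw [e3, i2, sgn_comm s c' b']
      push_cast
      ring

private lemma twist_sgn (n : ℤ) (b c : Bool) :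
    ((n.natAbs : ℕ) : ℤ) * sgn (decide (0 ≤ n)) b c = n * sgn true b c := by
  by_cases h : 0 ≤ n
  · rw [decide_eq_true h, Int.natAbs_of_nonneg h]
  · have h' : n < 0 := not_le.1 h
    rw [decide_eq_false h, sgn_false, Int.ofNat_natAbs_of_nonpos h'.le]
    ring

private lemma ori_twist_shift (l1 l2 : List Bool) (b c : Bool) (n m : ℤ) (l' : List Bool) (y : ℤ)
    (h : Ori (twist l1.length n) (l1 ++ b :: c :: l2) l' y) :
    Ori (twist l1.length (n + 2 * m)) (l1 ++ b :: c :: l2) l' (y + 2 * sgn true b c * m) := by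
  unfold twist at h ⊢
  obtain ⟨h1, h2⟩ := ori_rep_unique _ l1 l2 _ b c l' y h
  have h3 := ori_rep (decide (0 ≤ n + 2 * m)) l1 l2 (n + 2 * m).natAbs b c
  rw [twist_sgn] at h2 h3
  have e1 : Even (n + 2 * m).natAbs ↔ Even n.natAbs := by
    rw [Int.natAbs_even, Int.natAbs_even]
    constructor
    · rintro ⟨k, hk⟩
      exact ⟨k - m, by omega⟩
    · rintro ⟨k, hk⟩
      exact ⟨k + m, by omega⟩
  have e2 : y + 2 * sgn true b c * m = (n + 2 * m) * sgn true b c := by
    rw [h2]
    ring
  rw [h1, e2]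
  simp only [e1] at h3
  exact h3

private lemma split_at (l : List Bool) (i : ℕ) (h : i + 2 ≤ l.length) :
    ∃ l1 b c l2, l = l1 ++ b :: c :: l2 ∧ l1.length = i := by
  refine ⟨l.take i, l[i], l[i + 1], l.drop (i + 2), ?_, ?_⟩
  · conv_lhs => rw [← List.take_append_drop i l]
    congr 1
    rw [List.drop_eq_getElem_cons (by omega), List.drop_eq_getElem_cons (by omega)]
  · rw [List.length_take]
    omega

private lemma ori_ind : ∀ (k : ℕ) (v : Fin k → Word) (i : Fin k → ℕ) (l l' : List Bool)
    (s : Fin k → ℤ) (w0 : ℤ),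
    (∀ p : Fin k → ℤ,
      run (List.ofFn fun j : Fin k => twist (i j) (p j) ++ v j).flatten l.length ≠ none) →
    Ori (List.ofFn fun j : Fin k => twist (i j) (s j) ++ v j).flatten l l' w0 →
    ∃ σ : Fin k → ℤ, (∀ j, σ j = 2 ∨ σ j = -2) ∧
      ∀ p : Fin k → ℤ, Ori (List.ofFn fun j : Fin k => twist (i j) (s j + 2 * p j) ++ v j).flatten
        l l' (w0 + ∑ j, σ j * p j) := by
  intro k
  induction k with
  | zero =>
    intro v i l l' s w0 _ ho
    refine ⟨fun j => j.elim0, fun j => j.elim0, fun p => ?_⟩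
    simpa using ho
  | succ k ih =>
    intro v i l l' s w0 hc ho
    rw [List.ofFn_succ, List.flatten_cons, List.append_assoc] at ho
    obtain ⟨l1, y1, z1, o1, o1', e1⟩ := ori_split _ ho
    obtain ⟨l2, y2, z2, o2, o3, e2⟩ := ori_split _ o1'
    -- the place is legal
    have hleg : i 0 + 2 ≤ l.length := by
      have h1 := hc (fun _ => 1)
      rw [List.ofFn_succ, List.flatten_cons, List.append_assoc, wrun_append] at h1
      by_contra hcon
      apply h1
      have : run (twist (i 0) 1) l.length = none := by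
        simp only [twist, Int.natAbs_one, List.replicate_one, run, Kind.inn]
        rw [if_neg hcon]
      rw [this]
      rfl
    obtain ⟨a, b, c, d, hl, ha⟩ := split_at l (i 0) hleg
    have r1 := run_of_ori o1
    have r2 := run_of_ori o2
    have hc' : ∀ p : Fin k → ℤ,
        run (List.ofFn fun j : Fin k => twist (i j.succ) (p j) ++ v j.succ).flatten l2.length
          ≠ none := by
      intro p
      have h1 := hc (Fin.cons (s 0) p)
      rw [List.ofFn_succ, List.flatten_cons, List.append_assoc, wrun_append] at h1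
      simp only [Fin.cons_zero, Fin.cons_succ] at h1
      rw [r1, Option.bind_some, wrun_append, r2, Option.bind_some] at h1
      exact h1
    obtain ⟨σ, hσ, hp⟩ := ih (fun j => v j.succ) (fun j => i j.succ) l2 l'
      (fun j => s j.succ) z2 hc' o3
    refine ⟨Fin.cons (2 * sgn true b c) σ, ?_, ?_⟩
    · intro j
      refine Fin.cases ?_ (fun j => ?_) j
      · rw [Fin.cons_zero]
        cases b <;> cases c <;> simp [sgn]
      · rw [Fin.cons_succ]
        exact hσ j
    · intro p
      rw [List.ofFn_succ, List.flatten_cons, List.append_assoc]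
      have q1 : Ori (twist (i 0) (s 0 + 2 * p 0)) l l1 (y1 + 2 * sgn true b c * p 0) := by
        rw [hl, ← ha] at o1 ⊢
        exact ori_twist_shift a d b c _ _ _ _ o1
      have q2 := hp (fun j => p j.succ)
      have q3 := ori_append q1 (ori_append o2 q2)
      have e3 : w0 + ∑ j, (Fin.cons (2 * sgn true b c) σ : Fin (k + 1) → ℤ) j * p j =
          y1 + 2 * sgn true b c * p 0 + (y2 + (z2 + ∑ j, σ j * p j.succ)) := by
        rw [Fin.sum_univ_succ]
        simp only [Fin.cons_zero, Fin.cons_succ]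
        rw [e1, e2]
        ring
      rw [e3]
      exact q3

theorem ori_fam {k : ℕ} (u : Fin (k + 1) → Word) (i : Fin k → ℕ) (hc : ∀ p, Closed (fam u i p))
    (s : Fin k → ℤ) (w0 : ℤ) (ho : Ori (fam u i s) [] [] w0) :
    ∃ σ : Fin k → ℤ, (∀ j, σ j = 2 ∨ σ j = -2) ∧
      ∀ p : Fin k → ℤ, Ori (fam u i (s + 2 • p)) [] [] (w0 + ∑ j, σ j * p j) := by
  unfold fam at ho hc ⊢
  obtain ⟨l, y, z, o1, o2, e⟩ := ori_split _ ho
  have r1 := run_of_ori o1
  rw [List.length_nil] at r1
  have hc' : ∀ p : Fin k → ℤ,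
      run (List.ofFn fun j : Fin k => twist (i j) (p j) ++ u j.succ).flatten l.length ≠ none := by
    intro p
    have h1 := hc p
    unfold Closed at h1
    rw [wrun_append, r1, Option.bind_some] at h1
    rw [h1]
    simp
  obtain ⟨σ, hσ, hp⟩ := ori_ind k (fun j => u j.succ) i l [] s z hc' o2
  refine ⟨σ, hσ, fun p => ?_⟩
  have h2 := ori_append o1 (hp p)
  have e1 : w0 + ∑ j, σ j * p j = y + (z + ∑ j, σ j * p j) := by
    rw [e]
    ring
  rw [e1]
  have e2 : ∀ j, (s + 2 • p) j = s j + 2 * p j := by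
    intro j
    simp
  simp only [e2]
  exact h2

end Pool.Agent.Lib.TwF
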