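import Pool.Agent.Lib.TwF.WDefs

/-!
The recurrence for one twist region of a word.
-/

namespace Pool.Agent.Lib.TwF

open Pool.Agent.Lib.Skein

private lemma wr_run_append (u v : Word) (n : ℕ) : run (u ++ v) n = (run u n).bind (run v) := by
  induction u generalizing n with
  | nil => simp [run]
  | cons p u ih =>
    obtain ⟨k, i⟩ := p
    simp only [List.cons_append, run]
    split_ifs
    · exact ih _
    · rfl

private lemma wr_closed {A W B : Word} {m : ℕ} (hA : run A 0 = some m) (hW : run W m = some m)
    (hB : run B m = some 0) : Closed (A ++ W ++ B) := by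
  unfold Closed
  rw [wr_run_append, wr_run_append, hA]
  simp only [Option.bind_some]
  rw [hW]
  simpa using hB

private lemma wr_cr {m i : ℕ} (hm : i + 2 ≤ m) (s : Bool) {w : Word} (hw : run w m = some m) :
    run ((Kind.cr s, i) :: w) m = some m := by
  have h1 : i + (Kind.cr s).inn ≤ m := hm
  have h2 : m - (Kind.cr s).inn + (Kind.cr s).out = m := by
    show m - 2 + 2 = m
    omega
  simp only [run, if_pos h1, h2]
  exact hw

private lemma wr_cc {m i : ℕ} (hm : i + 2 ≤ m) {w : Word} (hw : run w m = some m) :
    run ((Kind.cap, i) :: (Kind.cup, i) :: w) m = some m := by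
  have h1 : i + Kind.cap.inn ≤ m := hm
  have h2 : i + Kind.cup.inn ≤ m - Kind.cap.inn + Kind.cap.out := by
    show i + 0 ≤ m - 2 + 0
    omega
  have h3 : m - Kind.cap.inn + Kind.cap.out - Kind.cup.inn + Kind.cup.out = m := by
    show m - 2 + 0 - 0 + 2 = m
    omega
  simp only [run, if_pos h1, if_pos h2, h3]
  exact hw

private lemma wr_rep {m i : ℕ} (hm : i + 2 ≤ m) (s : Bool) (n : ℕ) :
    run (List.replicate n (Kind.cr s, i)) m = some m := by
  induction n with
  | zero => rfl
  | succ n ih =>
    rw [List.replicate_succ]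
    exact wr_cr hm s ih

private lemma wr_tw {m i : ℕ} (hm : i + 2 ≤ m) (n : ℤ) : run (twist i n) m = some m :=
  wr_rep hm _ _

private lemma twist_pos (i : ℕ) {n : ℤ} (hn : 0 ≤ n) :
    twist i (n + 1) = (Kind.cr true, i) :: twist i n := by
  unfold twist
  rw [show (n + 1).natAbs = n.natAbs + 1 by omega, List.replicate_succ]
  rw [decide_eq_true (by omega : (0 : ℤ) ≤ n + 1), decide_eq_true hn]

private lemma twist_neg (i : ℕ) {n : ℤ} (hn : n < 0) :
    twist i n = (Kind.cr false, i) :: twist i (n + 1) := by
  unfold twist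
  rw [show n.natAbs = (n + 1).natAbs + 1 by omega, List.replicate_succ]
  rw [decide_eq_false (by omega : ¬ (0 : ℤ) ≤ n)]
  by_cases h : n + 1 = 0
  · rw [h]
    rfl
  · rw [decide_eq_false (by omega : ¬ (0 : ℤ) ≤ n + 1)]

theorem one_region {L : Word → R} (hL : IsKauf L) (A B : Word) (i : ℕ)
    (hc : ∀ n : ℤ, Closed (A ++ twist i n ++ B)) (n : ℤ) :
    L (A ++ twist i (n + 3) ++ B) - (mon (-1) 0 + mon 0 1) * L (A ++ twist i (n + 2) ++ B) +
      (1 + mon (-1) 0 * mon 0 1) * L (A ++ twist i (n + 1) ++ B) -
      mon (-1) 0 * L (A ++ twist i n ++ B) = 0 := by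
  -- the number of strands
  obtain ⟨m, hA, hm, hB⟩ : ∃ m, run A 0 = some m ∧ i + 2 ≤ m ∧ run B m = some 0 := by
    have h1 := hc 1
    have e : twist i 1 = [(Kind.cr true, i)] := rfl
    unfold Closed at h1
    rw [e, wr_run_append, wr_run_append] at h1
    cases hA : run A 0 with
    | none => rw [hA] at h1; simp at h1
    | some m =>
      rw [hA] at h1
      simp only [Option.bind_some] at h1
      by_cases hm : i + 2 ≤ m
      · rw [wr_cr hm true (w := []) rfl] at h1
        exact ⟨m, rfl, hm, by simpa using h1⟩
      · have h2 : run [(Kind.cr true, i)] m = none := by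
          have h3 : ¬ i + (Kind.cr true).inn ≤ m := hm
          simp only [run, if_neg h3]
        rw [h2] at h1
        simp at h1
  have cl : ∀ W : Word, run W m = some m → Closed (A ++ W ++ B) := fun W hW =>
    wr_closed hA hW hB
  have inv : mon (-1) 0 * mon 1 0 = 1 := by
    unfold mon
    rw [AddMonoidAlgebra.single_mul_single]
    rfl
  -- removing two opposite crossings
  have r2 : ∀ (P : Word) (s : Bool) (W : Word), run P m = some m → run W m = some m →
      L (A ++ (P ++ (Kind.cr s, i) :: (Kind.cr (!s), i) :: W) ++ B) = L (A ++ (P ++ W) ++ B) := by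
    intro P s W hP hW
    have h1 := hL.move (A ++ P) (W ++ B) _ _ (Move.r2 i s) (by
      have := cl (P ++ (Kind.cr s, i) :: (Kind.cr (!s), i) :: W) (by
        rw [wr_run_append, hP]
        exact wr_cr hm s (wr_cr hm _ hW))
      simpa [List.append_assoc] using this) (by
      have := cl (P ++ W) (by
        rw [wr_run_append, hP]
        exact hW)
      simpa [List.append_assoc] using this)
    simpa [List.append_assoc] using h1
  -- the skein relation
  have key : ∀ n : ℤ, L (A ++ twist i (n + 1) ++ B) + L (A ++ twist i (n - 1) ++ B) =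
      mon 0 1 * (L (A ++ twist i n ++ B)
        + L (A ++ ((Kind.cap, i) :: (Kind.cup, i) :: twist i n) ++ B)) := by
    intro n
    have h1 := hL.skein A (twist i n ++ B) i (by
      have := cl ((Kind.cr true, i) :: twist i n) (wr_cr hm true (wr_tw hm n))
      simpa [List.append_assoc] using this)
    have hT : L (A ++ [(Kind.cr true, i)] ++ (twist i n ++ B)) = L (A ++ twist i (n + 1) ++ B) := by
      by_cases hn : 0 ≤ n
      · rw [twist_pos i hn]
        congr 1
        simp [List.append_assoc]
      · push Not at hn
        have := r2 [] true (twist i (n + 1)) rfl (wr_tw hm _)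
        rw [twist_neg i hn]
        simpa [List.append_assoc] using this
    have hF : L (A ++ [(Kind.cr false, i)] ++ (twist i n ++ B)) = L (A ++ twist i (n - 1) ++ B) := by
      by_cases hn : n - 1 < 0
      · have h2 := twist_neg i hn
        rw [sub_add_cancel] at h2
        rw [h2]
        congr 1
        simp [List.append_assoc]
      · push Not at hn
        have h2 := twist_pos i hn
        rw [sub_add_cancel] at h2
        have := r2 [] false (twist i (n - 1)) rfl (wr_tw hm _)
        rw [h2]
        simpa [List.append_assoc] using this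
    rw [hT, hF] at h1
    rw [h1]
    congr 2
    · simp [List.append_assoc]
    · simp [List.append_assoc]
  -- the kink
  have curl : ∀ W : Word, run W m = some m →
      L (A ++ ((Kind.cap, i) :: (Kind.cup, i) :: (Kind.cr false, i) :: W) ++ B) =
        mon 1 0 * L (A ++ ((Kind.cap, i) :: (Kind.cup, i) :: W) ++ B) := by
    intro W hW
    have h1 := hL.curl (A ++ [(Kind.cap, i)]) (W ++ B) i (by
      have := cl ((Kind.cap, i) :: (Kind.cup, i) :: W) (wr_cc hm hW)
      simpa [List.append_assoc] using this)
    simpa [List.append_assoc] using h1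
  have key2 : ∀ n : ℤ, L (A ++ ((Kind.cap, i) :: (Kind.cup, i) :: twist i (n + 1)) ++ B) =
      mon (-1) 0 * L (A ++ ((Kind.cap, i) :: (Kind.cup, i) :: twist i n) ++ B) := by
    intro n
    by_cases hn : 0 ≤ n
    · rw [twist_pos i hn]
      have h1 := curl ((Kind.cr true, i) :: twist i n) (wr_cr hm true (wr_tw hm n))
      have h2 := r2 [(Kind.cap, i), (Kind.cup, i)] false (twist i n) (wr_cc hm (w := []) rfl)
        (wr_tw hm n)
      simp only [List.cons_append, List.nil_append, Bool.not_false] at h2
      rw [h2] at h1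
      rw [h1, ← mul_assoc, inv, one_mul]
    · push Not at hn
      rw [twist_neg i hn, curl _ (wr_tw hm _), ← mul_assoc, inv, one_mul]
  have k1 := key (n + 1)
  have k2 := key (n + 2)
  have k3 := key2 (n + 1)
  rw [show n + 1 + 1 = n + 2 by ring, show n + 1 - 1 = n by ring] at k1
  rw [show n + 2 + 1 = n + 3 by ring, show n + 2 - 1 = n + 1 by ring] at k2
  rw [show n + 1 + 1 = n + 2 by ring] at k3
  rw [k3] at k2
  linear_combination k2 - mon (-1) 0 * k1

end Pool.Agent.Lib.TwF
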