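import Pool.Agent.Lib.TwF.WDefs

namespace Pool.Agent.Lib.TwF

open Pool.Agent.Lib.Skein

private theorem flatten_update {α : Type*} : ∀ {k : ℕ} (f : Fin k → List α) (j : Fin k),
    ∃ A B : List α, ∀ x : List α,
      (List.ofFn (Function.update f j x)).flatten = A ++ x ++ B := by
  intro k
  induction k with
  | zero =>
    intro f j
    exact j.elim0
  | succ k ih =>
    intro f j
    rcases Fin.eq_zero_or_eq_succ j with rfl | ⟨j, rfl⟩
    · refine ⟨[], (List.ofFn fun i : Fin k => f i.succ).flatten, fun x => ?_⟩
      rw [List.ofFn_succ, List.flatten_cons, Function.update_self]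
      have h : (fun i : Fin k => Function.update f 0 x i.succ) = fun i : Fin k => f i.succ := by
        funext i
        exact Function.update_of_ne (Fin.succ_ne_zero i) _ _
      rw [h]
      simp
    · obtain ⟨A, B, hAB⟩ := ih (fun i : Fin k => f i.succ) j
      refine ⟨f 0 ++ A, B, fun x => ?_⟩
      have h0 : Function.update f j.succ x 0 = f 0 :=
        Function.update_of_ne (Fin.succ_ne_zero j).symm _ _
      have h : (fun i : Fin k => Function.update f j.succ x i.succ) =
          Function.update (fun i : Fin k => f i.succ) j x := by
        funext i
        by_cases hi : i = j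
        · subst hi
          rw [Function.update_self, Function.update_self]
        · rw [Function.update_of_ne hi,
            Function.update_of_ne (fun h => hi (Fin.succ_injective _ h))]
      rw [List.ofFn_succ, List.flatten_cons, h0, h, hAB]
      simp only [List.append_assoc]

theorem fam_split {k : ℕ} (u : Fin (k + 1) → Word) (i : Fin k → ℕ) (p : Fin k → ℤ) (j : Fin k) :
    ∃ A B : Word, ∀ n : ℤ, fam u i (Function.update p j n) = A ++ twist (i j) n ++ B := by
  obtain ⟨A, B, hAB⟩ := flatten_update (fun j : Fin k => twist (i j) (p j) ++ u j.succ) j
  refine ⟨u 0 ++ A, u j.succ ++ B, fun n => ?_⟩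
  have h : (fun j' : Fin k => twist (i j') (Function.update p j n j') ++ u j'.succ) =
      Function.update (fun j' : Fin k => twist (i j') (p j') ++ u j'.succ) j
        (twist (i j) n ++ u j.succ) := by
    funext j'
    by_cases hj : j' = j
    · subst hj
      rw [Function.update_self, Function.update_self]
    · rw [Function.update_of_ne hj, Function.update_of_ne hj]
  unfold fam
  rw [h, hAB]
  simp only [List.append_assoc]

end Pool.Agent.Lib.TwF
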