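import Pool.Agent.Lib.TwF.UAssembly
import Pool.Agent.Lib.TwF.WRegion
import Pool.Agent.Lib.TwF.WSplit
import Pool.Agent.Lib.TwF.WOri

namespace Pool.Agent.Lib.TwF

open Pool.Agent.Lib.Skein

theorem umain {k : ℕ} (L : Word → R) (hL : IsKauf L) (u : Fin (k + 1) → Word) (i : Fin k → ℕ)
    (hc : ∀ p, Closed (fam u i p)) (s : Fin k → ℤ) (w0 : ℤ) (ho : Ori (fam u i s) [] [] w0) :
    ∃ σ : Fin k → ℤ, (∀ j, σ j = 2 ∨ σ j = -2) ∧
      (∀ p : Fin k → ℤ, Ori (fam u i (s + 2 • p)) [] [] (w0 + ∑ j, σ j * p j)) ∧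
      IsUniform (Special σ)
        (fun p : Fin k → ℤ => mon (-(w0 + ∑ j, σ j * p j)) 0 * L (fam u i (s + 2 • p))) := by
  obtain ⟨σ, h1, h2⟩ := ori_fam u i hc s w0 ho
  refine ⟨σ, h1, h2, ?_⟩
  refine uassembly (fun p => L (fam u i p)) (fun j p => ?_) s w0 σ
  obtain ⟨A, B, hAB⟩ := fam_split u i p j
  have key : ∀ m : ℤ, fam u i (p + Pi.single j m) = A ++ twist (i j) (p j + m) ++ B := by
    intro m
    rw [← hAB]
    congr 1
    ext x
    by_cases hx : x = j
    · subst hx; simp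
    · simp [hx]
  have key0 : fam u i p = A ++ twist (i j) (p j) ++ B := by
    have := hAB (p j)
    rwa [Function.update_eq_self] at this
  rw [key, key, key, key0]
  exact one_region hL A B (i j) (fun n => by rw [← hAB]; exact hc _) (p j)

end Pool.Agent.Lib.TwF
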