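import Pool.Agent.Lib.Skein.Defs
import Pool.Agent.Lib.TwF.Defs

/-!
Link diagrams as closed words (Lib/Skein/Defs), the Kauffman polynomial on them, twist regions, orientations.
-/

namespace Pool.Agent.Lib.TwF

open Pool.Agent.Lib.Skein

/-- `L` is the unnormalised Kauffman polynomial: an invariant of framed links (closed words modulo `Move`)
with value 1 on the unknot, a factor `a` for a positive kink, and the skein relation. Only the values on
link diagrams (closed words) matter. -/
structure IsKauf (L : Word → R) : Prop where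
  unknot : L [(Kind.cup, 0), (Kind.cap, 0)] = 1
  move : ∀ u v r s : Word, Move r s → Closed (u ++ r ++ v) → Closed (u ++ s ++ v) →
    L (u ++ r ++ v) = L (u ++ s ++ v)
  curl : ∀ (u v : Word) (i : ℕ), Closed (u ++ [(Kind.cup, i)] ++ v) →
    L (u ++ [(Kind.cup, i), (Kind.cr false, i)] ++ v) = mon 1 0 * L (u ++ [(Kind.cup, i)] ++ v)
  skein : ∀ (u v : Word) (i : ℕ), Closed (u ++ [(Kind.cr true, i)] ++ v) →
    L (u ++ [(Kind.cr true, i)] ++ v) + L (u ++ [(Kind.cr false, i)] ++ v) =
      mon 0 1 * (L (u ++ v) + L (u ++ [(Kind.cap, i), (Kind.cup, i)] ++ v))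

/-- `n` half twists (right-handed for `n > 0`) of the two adjacent strands in the places `i`, `i + 1`. -/
def twist (i : ℕ) (n : ℤ) : Word := List.replicate n.natAbs (Kind.cr (decide (0 ≤ n)), i)

/-- the diagram `u 0, twist (i 0) (p 0), u 1, twist (i 1) (p 1), …, u k` with `k` twist regions. -/
def fam {k : ℕ} (u : Fin (k + 1) → Word) (i : Fin k → ℕ) (p : Fin k → ℤ) : Word :=
  u 0 ++ (List.ofFn fun j : Fin k => twist (i j) (p j) ++ u j.succ).flatten

/-- the sign of a crossing (`s = true`: right-handed half twist) of two strands with directions `b`, `c`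
(`true`: upwards). -/
def sgn (s b c : Bool) : ℤ := if s = (b == c) then 1 else -1

/-- `Ori w l l' x`: the tangle word `w` can be oriented such that its strands have the directions `l` at the bottom
and `l'` at the top (`true`: upwards), and the signs of its crossings add up to `x`. -/
inductive Ori : Word → List Bool → List Bool → ℤ → Prop
  | nil (l : List Bool) : Ori [] l l 0
  | cup (w : Word) (b : Bool) (l1 l2 l' : List Bool) (x : ℤ) :
      Ori w (l1 ++ b :: (!b) :: l2) l' x → Ori ((Kind.cup, l1.length) :: w) (l1 ++ l2) l' x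
  | cap (w : Word) (b : Bool) (l1 l2 l' : List Bool) (x : ℤ) :
      Ori w (l1 ++ l2) l' x → Ori ((Kind.cap, l1.length) :: w) (l1 ++ b :: (!b) :: l2) l' x
  | cr (s : Bool) (w : Word) (b c : Bool) (l1 l2 l' : List Bool) (x : ℤ) :
      Ori w (l1 ++ c :: b :: l2) l' x →
        Ori ((Kind.cr s, l1.length) :: w) (l1 ++ b :: c :: l2) l' (sgn s b c + x)

end Pool.Agent.Lib.TwF
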