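import Pool.Agent.Lib.TwF.Defs

namespace Pool.Agent.Lib.TwF

open Finset

section

variable {k : ℕ} {ι : Type} [Fintype ι]

lemma coeff_shift (v m : ℤ × ℤ) (C : AddMonoidAlgebra ℤ (ℤ × ℤ)) :
    (AddMonoidAlgebra.single v 1 * C).coeff m = C.coeff (-v + m) := by
  rw [AddMonoidAlgebra.coeff_single_mul_apply, one_mul]

open Classical in
/-- the differences of exponents -/
noncomputable def dif (C : ι → AddMonoidAlgebra ℤ (ℤ × ℤ)) : Finset (ℤ × ℤ) :=
  (univ : Finset (ι × ι)).biUnion fun t =>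
    ((C t.1).coeff.support ×ˢ (C t.2).coeff.support).image fun u => u.2 - u.1

lemma mem_dif {C : ι → AddMonoidAlgebra ℤ (ℤ × ℤ)} {i j : ι} {s s' : ℤ × ℤ}
    (hs : (C i).coeff s ≠ 0) (hs' : (C j).coeff s' ≠ 0) : s' - s ∈ dif C := by
  classical
  unfold dif
  refine mem_biUnion.2 ⟨(i, j), mem_univ _, mem_image.2 ⟨(s, s'), ?_, rfl⟩⟩
  exact mem_product.2 ⟨Finsupp.mem_support_iff.2 hs, Finsupp.mem_support_iff.2 hs'⟩

open Classical in
/-- the pattern of a point -/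
noncomputable def pat (l : ι → (Fin k → ℤ) →+ ℤ × ℤ) (Δ : Finset (ℤ × ℤ)) (p : Fin k → ℤ) :
    ι × ι → Option Δ := fun t =>
  if h : l t.1 p - l t.2 p ∈ Δ then some ⟨l t.1 p - l t.2 p, h⟩ else none

/-- the subgroup of a pattern -/
def sg (l : ι → (Fin k → ℤ) →+ ℤ × ℤ) (Δ : Finset (ℤ × ℤ)) (τ : ι × ι → Option Δ) :
    AddSubgroup (Fin k → ℤ) where
  carrier := {q | ∀ t : ι × ι, τ t ≠ none → l t.1 q = l t.2 q}
  zero_mem' := fun t _ => by rw [map_zero, map_zero]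
  add_mem' := fun {a b} ha hb t ht => by rw [map_add, map_add, ha t ht, hb t ht]
  neg_mem' := fun {a} ha t ht => by rw [map_neg, map_neg, ha t ht]

lemma mem_sg {l : ι → (Fin k → ℤ) →+ ℤ × ℤ} {Δ : Finset (ℤ × ℤ)} {τ : ι × ι → Option Δ}
    {q : Fin k → ℤ} : q ∈ sg l Δ τ ↔ ∀ t : ι × ι, τ t ≠ none → l t.1 q = l t.2 q := Iff.rfl

lemma sg_saturated (l : ι → (Fin k → ℤ) →+ ℤ × ℤ) (Δ : Finset (ℤ × ℤ)) (τ : ι × ι → Option Δ)
    (n : ℤ) (q : Fin k → ℤ) (hn : n ≠ 0) (h : n • q ∈ sg l Δ τ) : q ∈ sg l Δ τ := by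
  intro t ht
  have h1 := h t ht
  rw [map_zsmul, map_zsmul] at h1
  have e1 := congrArg Prod.fst h1
  have e2 := congrArg Prod.snd h1
  simp only [Prod.smul_fst, Prod.smul_snd, smul_eq_mul] at e1 e2
  exact Prod.ext (mul_left_cancel₀ hn e1) (mul_left_cancel₀ hn e2)

lemma pat_sub (l : ι → (Fin k → ℤ) →+ ℤ × ℤ) (Δ : Finset (ℤ × ℤ)) {p p' : Fin k → ℤ}
    (h : pat l Δ p = pat l Δ p') : p - p' ∈ sg l Δ (pat l Δ p) := by
  classical
  intro t ht
  have h1 : l t.1 p - l t.2 p ∈ Δ := by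
    by_contra h2
    exact ht (by simp [pat, h2])
  have h2 : l t.1 p' - l t.2 p' ∈ Δ := by
    by_contra h2
    rw [h] at ht
    exact ht (by simp [pat, h2])
  have h3 := congrFun h t
  simp only [pat, dif_pos h1, dif_pos h2, Option.some.injEq, Subtype.mk.injEq] at h3
  rw [map_sub, map_sub]
  have e1 : l t.1 p - l t.1 p' - (l t.2 p - l t.2 p') =
      (l t.1 p - l t.2 p) - (l t.1 p' - l t.2 p') := by abel
  rw [← sub_eq_zero, e1, h3, sub_self]

lemma zs_add (l : ι → (Fin k → ℤ) →+ ℤ × ℤ) (C : ι → AddMonoidAlgebra ℤ (ℤ × ℤ))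
    (p q : Fin k → ℤ) (hp : ∑ j, AddMonoidAlgebra.single (l j p) 1 * C j = 0)
    (hq : q ∈ sg l (dif C) (pat l (dif C) p)) :
    ∑ j, AddMonoidAlgebra.single (l j (p + q)) 1 * C j = 0 := by
  classical
  have hco : ∀ (r : Fin k → ℤ) (m : ℤ × ℤ),
      (∑ j, AddMonoidAlgebra.single (l j r) 1 * C j).coeff m =
        ∑ j, (C j).coeff (-(l j r) + m) := by
    intro r m
    rw [AddMonoidAlgebra.coeff_sum, Finsupp.finsetSum_apply]
    exact Finset.sum_congr rfl fun j _ => coeff_shift _ _ _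
  have hp' : ∀ m, ∑ j, (C j).coeff (-(l j p) + m) = 0 := by
    intro m
    rw [← hco, hp]
    rfl
  apply AddMonoidAlgebra.ext
  refine Finsupp.ext fun m => ?_
  rw [hco]
  show ∑ j, (C j).coeff (-(l j (p + q)) + m) = 0
  rw [← Finset.sum_fiberwise_of_maps_to (s := univ) (t := univ.image fun j => l j q)
    (g := fun j => l j q) (fun j _ => mem_image_of_mem _ (mem_univ j))]
  refine Finset.sum_eq_zero fun g _ => ?_
  by_cases hex : ∃ i, l i q = g ∧ (C i).coeff (-(l i p) + (-g + m)) ≠ 0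
  · obtain ⟨i, hi, hi0⟩ := hex
    rw [← hp' (-g + m), Finset.sum_filter]
    refine Finset.sum_congr rfl fun j _ => ?_
    split_ifs with hj
    · rw [(l j).map_add p q, hj]
      congr 1
      abel
    · by_contra hj0
      apply hj
      have hj1 : (C j).coeff (-(l j p) + (-g + m)) ≠ 0 := fun h => hj0 h.symm
      have h2 := mem_dif hj1 hi0
      have h3 : l j p - l i p ∈ dif C := by
        have e : -(l i p) + (-g + m) - (-(l j p) + (-g + m)) = l j p - l i p := by abel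
        rwa [e] at h2
      have h4 := hq (j, i) (by simp [pat, h3])
      exact h4.trans hi
  · push Not at hex
    refine Finset.sum_eq_zero fun j hj => ?_
    have hj' : l j q = g := (mem_filter.1 hj).2
    have h1 := hex j hj'
    rw [(l j).map_add p q, hj']
    have e : -(l j p + g) + m = -(l j p) + (-g + m) := by abel
    rw [e]
    exact h1

end

theorem zero_set {k : ℕ} {ι : Type} [Fintype ι] (l : ι → (Fin k → ℤ) →+ ℤ × ℤ)
    (C : ι → AddMonoidAlgebra ℤ (ℤ × ℤ)) (j0 : ι) (h0 : C j0 ≠ 0) :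
    IsCosetUnion (fun H => ∃ j, j ≠ j0 ∧ ∀ q ∈ H, l j0 q = l j q)
      {p : Fin k → ℤ | ∑ j, AddMonoidAlgebra.single (l j p) 1 * C j = 0} := by
  classical
  set Z : Set (Fin k → ℤ) := {p | ∑ j, AddMonoidAlgebra.single (l j p) 1 * C j = 0} with hZ
  let T := {τ : ι × ι → Option (dif C) // ∃ p ∈ Z, pat l (dif C) p = τ}
  have hch : ∀ τ : T, ∃ p ∈ Z, pat l (dif C) p = τ.1 := fun τ => τ.2
  choose f hf1 hf2 using hch
  refine ⟨(univ : Finset T).image fun τ => (sg l (dif C) τ.1, f τ), ?_, ?_⟩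
  · intro t ht
    obtain ⟨τ, _, rfl⟩ := mem_image.1 ht
    refine ⟨?_, sg_saturated l (dif C) τ.1⟩
    obtain ⟨s, hs⟩ : ∃ s, (C j0).coeff s ≠ 0 := by
      by_contra hcon
      push Not at hcon
      exact h0 (AddMonoidAlgebra.ext (Finsupp.ext hcon))
    have h1 : ∑ j, (C j).coeff (-(l j (f τ)) + (s + l j0 (f τ))) = 0 := by
      have h2 : (∑ j, AddMonoidAlgebra.single (l j (f τ)) 1 * C j).coeff (s + l j0 (f τ)) = 0 := by
        have h3 : ∑ j, AddMonoidAlgebra.single (l j (f τ)) 1 * C j = 0 := hf1 τ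
        rw [h3]
        rfl
      rw [AddMonoidAlgebra.coeff_sum, Finsupp.finsetSum_apply] at h2
      rw [← h2]
      exact Finset.sum_congr rfl fun j _ => (coeff_shift _ _ _).symm
    have h2 : -(l j0 (f τ)) + (s + l j0 (f τ)) = s := by abel
    obtain ⟨j, hj, hj1⟩ : ∃ j, j ≠ j0 ∧ (C j).coeff (-(l j (f τ)) + (s + l j0 (f τ))) ≠ 0 := by
      by_contra hcon
      push Not at hcon
      rw [Finset.sum_eq_single j0 (fun j _ hj => hcon j hj) (fun h => absurd (mem_univ _) h), h2] at h1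
      exact hs h1
    refine ⟨j, hj, fun q hq => ?_⟩
    have h3 := mem_dif hj1 hs
    have h4 : l j (f τ) - l j0 (f τ) ∈ dif C := by
      have e : s - (-(l j (f τ)) + (s + l j0 (f τ))) = l j (f τ) - l j0 (f τ) := by abel
      rwa [e] at h3
    have h5 := hq (j, j0) (by rw [← hf2 τ]; simp [pat, h4])
    exact h5.symm
  · intro p
    constructor
    · intro hp
      let τ : T := ⟨pat l (dif C) p, p, hp, rfl⟩
      refine ⟨(sg l (dif C) τ.1, f τ), mem_image.2 ⟨τ, mem_univ _, rfl⟩, ?_⟩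
      exact pat_sub l (dif C) (hf2 τ).symm
    · rintro ⟨t, ht, hp⟩
      obtain ⟨τ, _, rfl⟩ := mem_image.1 ht
      have h1 := zs_add l C (f τ) (p - f τ) (hf1 τ) (by rw [hf2 τ]; exact hp)
      rw [add_sub_cancel] at h1
      exact h1

end Pool.Agent.Lib.TwF
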